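import Mathlib

/-!
Rulings of flat surfaces: a scalar lemma on `Q N = F ^ 2` with the Codazzi relations.
-/

set_option autoImplicit false

open Set Filter Topology

namespace Pool.Agent.Y235.FE

section dd

variable {V : Type*} [NormedAddCommGroup V] [NormedSpace ℝ V]

/-- directional derivative -/
noncomputable def dd (v : ℂ) (f : ℂ → V) (z : ℂ) : V := fderiv ℝ f z v

theorem hasFDerivAt_dd (w : ℂ) {f : ℂ → V} {z : ℂ} (hf : DifferentiableAt ℝ (fderiv ℝ f) z) :
    HasFDerivAt (dd w f) ((ContinuousLinearMap.apply ℝ V w).comp (fderiv ℝ (fderiv ℝ f) z)) z :=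
  (ContinuousLinearMap.apply ℝ V w).hasFDerivAt.comp z hf.hasFDerivAt

theorem dd_dd (v w : ℂ) {f : ℂ → V} {z : ℂ} (hf : DifferentiableAt ℝ (fderiv ℝ f) z) :
    dd v (dd w f) z = fderiv ℝ (fderiv ℝ f) z v w := by
  rw [dd, (hasFDerivAt_dd w hf).fderiv]
  rfl

theorem dd_congr {v : ℂ} {f g : ℂ → V} {z : ℂ} (h : f =ᶠ[𝓝 z] g) : dd v f z = dd v g z := by
  rw [dd, dd, h.fderiv_eq]

theorem hasDerivAt_line {f : ℂ → V} {p v : ℂ} {t : ℝ} (hf : DifferentiableAt ℝ f (p + t • v)) :
    HasDerivAt (fun t : ℝ => f (p + t • v)) (dd v f (p + t • v)) t := by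
  have h1 : HasDerivAt (fun t : ℝ => p + t • v) v t := by
    have := ((hasDerivAt_id t).smul_const v).const_add p
    simpa using this
  exact hf.hasFDerivAt.comp_hasDerivAt t h1

variable [CompleteSpace V]

theorem dd_analyticAt (v : ℂ) {f : ℂ → V} {z : ℂ} (hf : AnalyticAt ℝ f z) : AnalyticAt ℝ (dd v f) z :=
  ((ContinuousLinearMap.apply ℝ V v).analyticAt _).comp hf.fderiv

theorem dd_comm (v w : ℂ) {f : ℂ → V} {z : ℂ} (hf : AnalyticAt ℝ f z) :
    dd v (dd w f) z = dd w (dd v f) z := by
  rw [dd_dd v w hf.fderiv.differentiableAt, dd_dd w v hf.fderiv.differentiableAt]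
  exact (hf.contDiffAt (n := 2)).isSymmSndFDerivAt (by simp) v w

end dd

theorem dd_mul (v : ℂ) {f g : ℂ → ℝ} {z : ℂ} (hf : DifferentiableAt ℝ f z) (hg : DifferentiableAt ℝ g z) :
    dd v (fun z => f z * g z) z = f z * dd v g z + dd v f z * g z := by
  have h := (hf.hasFDerivAt.mul hg.hasFDerivAt).fderiv
  rw [dd, show (fun z => f z * g z) = f * g from rfl, h]
  simp [dd, mul_comm]

section scalar

variable {U : Set ℂ} {Q F N : ℂ → ℝ} {v w : ℂ}

theorem line_cont {f : ℂ → ℝ} {p : ℂ} {s : Set ℝ} (hf : ∀ t ∈ s, ContinuousAt f (p + t • v)) :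
    ContinuousOn (fun t : ℝ => f (p + t • v)) s := by
  intro t ht
  have h1 : ContinuousAt (fun t : ℝ => p + t • v) t := by fun_prop
  exact (ContinuousAt.comp (f := fun t : ℝ => p + t • v) (hf t ht) h1).continuousWithinAt

/-- the key scalar lemma -/
theorem scalar_ruling (hU : IsOpen U) (hQ : AnalyticOnNhd ℝ Q U) (hF : AnalyticOnNhd ℝ F U)
    (hN : AnalyticOnNhd ℝ N U) (h1 : ∀ z ∈ U, dd w Q z = dd v F z) (h2 : ∀ z ∈ U, dd w F z = dd v N z)
    (h3 : ∀ z ∈ U, Q z * N z = F z ^ 2) {p : ℂ} {T : ℝ} (hseg : ∀ t ∈ Icc 0 T, p + t • v ∈ U)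
    (hF0 : F p = 0) (hN0 : N p ≠ 0) :
    ∀ t ∈ Icc 0 T, F (p + t • v) = 0 ∧ N (p + t • v) ≠ 0 := by
  -- first derivative of the relation
  have h4 : ∀ z ∈ U, Q z * dd w N z + dd w Q z * N z = 2 * F z * dd w F z := by
    intro z hz
    have e : (fun z => Q z * N z) =ᶠ[𝓝 z] (fun z => F z * F z) := by
      filter_upwards [hU.mem_nhds hz] with y hy
      rw [h3 y hy, sq]
    have := dd_congr (v := w) e
    rw [dd_mul w (hQ z hz).differentiableAt (hN z hz).differentiableAt,
      dd_mul w (hF z hz).differentiableAt (hF z hz).differentiableAt] at this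
    rw [this]; ring
  -- second derivative where `F = 0`
  have h5 : ∀ z ∈ U, F z = 0 → N z ≠ 0 → dd v (dd w F) z * N z = 2 * (dd w F z) ^ 2 := by
    intro z hz hFz hNz
    have hQz : Q z = 0 := by
      have := h3 z hz
      rw [hFz] at this
      have h6 : Q z * N z = 0 := by rw [this]; ring
      exact (mul_eq_zero.1 h6).resolve_right hNz
    have hQw : dd w Q z = 0 := by
      have := h4 z hz
      rw [hQz, hFz] at this
      have h6 : dd w Q z * N z = 0 := by linarith
      exact (mul_eq_zero.1 h6).resolve_right hNz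
    have e : (fun z => Q z * dd w N z + dd w Q z * N z) =ᶠ[𝓝 z] (fun z => F z * (2 * dd w F z)) := by
      filter_upwards [hU.mem_nhds hz] with y hy
      rw [h4 y hy]; ring
    have e2 := dd_congr (v := w) e
    have dQ := (hQ z hz).differentiableAt
    have dN := (hN z hz).differentiableAt
    have dF := (hF z hz).differentiableAt
    have dQw := (dd_analyticAt w (hQ z hz)).differentiableAt
    have dNw := (dd_analyticAt w (hN z hz)).differentiableAt
    have dFw := (dd_analyticAt w (hF z hz)).differentiableAt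
    have e3 : dd w (fun z => Q z * dd w N z + dd w Q z * N z) z =
        dd w (fun z => Q z * dd w N z) z + dd w (fun z => dd w Q z * N z) z := by
      have := fderiv_add (𝕜 := ℝ) (f := fun z => Q z * dd w N z) (g := fun z => dd w Q z * N z) (x := z)
        (dQ.mul dNw) (dQw.mul dN)
      have h7 := congrArg (fun L => L w) this
      exact h7
    have e4 : dd w (fun z => 2 * dd w F z) z = 2 * dd w (dd w F) z := by
      rw [dd_mul w (differentiableAt_const _) dFw]
      simp [dd]
    rw [e3, dd_mul w dQ dNw, dd_mul w dQw dN, dd_mul w dF (dFw.const_mul 2), e4, hQz, hQw, hFz] at e2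
    have e5 : dd v (dd w F) z = dd w (dd w Q) z := by
      rw [dd_comm v w (hF z hz)]
      apply dd_congr
      filter_upwards [hU.mem_nhds hz] with y hy
      rw [h1 y hy]
    rw [e5]
    linarith
  -- `F` vanishes as long as `N` does not
  have hA : ∀ t₁ : ℝ, t₁ ≤ T → (∀ t ∈ Icc 0 t₁, N (p + t • v) ≠ 0) → ∀ t ∈ Icc 0 t₁, F (p + t • v) = 0 := by
    intro t₁ ht₁ hne
    have hin : ∀ t ∈ Icc 0 t₁, p + t • v ∈ U := fun t ht => hseg t ⟨ht.1, ht.2.trans ht₁⟩
    have hcont : ContinuousOn (fun t : ℝ => (2 * dd w F (p + t • v) -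
        F (p + t • v) * dd w N (p + t • v) / N (p + t • v)) / N (p + t • v)) (Icc 0 t₁) := by
      have c1 := line_cont (v := v) (p := p) fun t ht => (dd_analyticAt w (hF _ (hin t ht))).continuousAt
      have c2 := line_cont (v := v) (p := p) fun t ht => (hF _ (hin t ht)).continuousAt
      have c3 := line_cont (v := v) (p := p) fun t ht => (dd_analyticAt w (hN _ (hin t ht))).continuousAt
      have c4 := line_cont (v := v) (p := p) fun t ht => (hN _ (hin t ht)).continuousAt
      exact ((continuousOn_const.mul c1).sub ((c2.mul c3).div c4 hne)).div c4 hne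
    obtain ⟨K, hK⟩ := isCompact_Icc.exists_bound_of_continuousOn hcont
    have hg := norm_le_gronwallBound_of_norm_deriv_right_le (f := fun t : ℝ => F (p + t • v))
      (f' := fun t : ℝ => dd v F (p + t • v)) (δ := 0) (K := K) (ε := 0) (a := 0) (b := t₁)
      (line_cont (v := v) (p := p) fun t ht => (hF _ (hin t ht)).continuousAt)
      (fun t ht => (hasDerivAt_line (hF _ (hin t (Ico_subset_Icc_self ht))).differentiableAt).hasDerivWithinAt)
      (by simp [hF0]) (by
        intro t ht
        have ht' := Ico_subset_Icc_self ht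
        have hz := hin t ht'
        have hNt := hne t ht'
        have h6 := hK t ht'
        rw [add_zero, ← h1 _ hz]
        have h7 : dd w Q (p + t • v) = (2 * dd w F (p + t • v) -
          F (p + t • v) * dd w N (p + t • v) / N (p + t • v)) / N (p + t • v) * F (p + t • v) := by
          have h8 := h4 _ hz
          have h9 := h3 _ hz
          field_simp
          have : dd w Q (p + t • v) * N (p + t • v) ^ 2 =
            (2 * F (p + t • v) * dd w F (p + t • v) - Q (p + t • v) * dd w N (p + t • v)) * N (p + t • v) := by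
            rw [← h8]; ring
          rw [this, sub_mul, mul_right_comm (Q (p + t • v)), h9]
          ring
        rw [h7, norm_mul]
        exact mul_le_mul_of_nonneg_right h6 (norm_nonneg _))
    intro t ht
    have := hg t ht
    rw [gronwallBound_ε0_δ0] at this
    exact norm_le_zero_iff.1 this
  -- `N` does not vanish
  have hB : ∀ t ∈ Icc 0 T, N (p + t • v) ≠ 0 := by
    by_contra hcon
    push Not at hcon
    obtain ⟨t₀, ht₀, hNt₀⟩ := hcon
    have hNc : ContinuousOn (fun t : ℝ => N (p + t • v)) (Icc 0 T) :=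
      line_cont (v := v) (p := p) fun t ht => (hN _ (hseg t ht)).continuousAt
    have hZc : IsCompact (Icc 0 T ∩ (fun t : ℝ => N (p + t • v)) ⁻¹' {0}) :=
      isCompact_Icc.of_isClosed_subset (hNc.preimage_isClosed_of_isClosed isClosed_Icc isClosed_singleton)
        inter_subset_left
    obtain ⟨τ, ⟨⟨hτ, hNτ⟩, hmin⟩⟩ := hZc.exists_isLeast ⟨t₀, ht₀, hNt₀⟩
    have hNτ' : N (p + τ • v) = 0 := hNτ
    have hτ0 : 0 < τ := by
      rcases hτ.1.eq_or_lt with h | h
      · exfalso; apply hN0; rw [← h] at hNτ'; simpa using hNτ'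
      · exact h
    have hne : ∀ t, 0 ≤ t → t < τ → N (p + t • v) ≠ 0 := by
      intro t h0 h6 h7
      exact absurd (hmin ⟨⟨h0, h6.le.trans hτ.2⟩, h7⟩) (not_le.2 h6)
    have hFz : ∀ t, 0 ≤ t → t < τ → F (p + t • v) = 0 := by
      intro t h0 h6
      exact hA t (h6.le.trans hτ.2) (fun s hs => hne s hs.1 (hs.2.trans_lt h6)) t ⟨h0, le_rfl⟩
    have hin : ∀ t, 0 ≤ t → t < τ → p + t • v ∈ U := fun t h0 h6 => hseg t ⟨h0, h6.le.trans hτ.2⟩
    set κ : ℝ := dd w F p / N p ^ 2 with hκ
    have hconst : ∀ t, 0 ≤ t → t < τ → dd w F (p + t • v) = κ * N (p + t • v) ^ 2 := by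
      intro t h0 h6
      have h7 := constant_of_has_deriv_right_zero (f := fun s : ℝ => dd w F (p + s • v) / N (p + s • v) ^ 2)
        (a := 0) (b := t) (by
          apply ContinuousOn.div
          · exact line_cont (v := v) (p := p) fun s hs =>
              (dd_analyticAt w (hF _ (hin s hs.1 (hs.2.trans_lt h6)))).continuousAt
          · exact (line_cont (v := v) (p := p) fun s hs =>
              (hN _ (hin s hs.1 (hs.2.trans_lt h6))).continuousAt).pow 2
          · intro s hs
            exact pow_ne_zero 2 (hne s hs.1 (hs.2.trans_lt h6))) (by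
          intro s hs
          have hs' : s < τ := hs.2.trans h6
          have hz := hin s hs.1 hs'
          have d1 := hasDerivAt_line (v := v) (p := p) (t := s) (dd_analyticAt w (hF _ hz)).differentiableAt
          have d2 := hasDerivAt_line (v := v) (p := p) (t := s) (hN _ hz).differentiableAt
          have d3 := d1.div (d2.pow 2) (pow_ne_zero 2 (hne s hs.1 hs'))
          have hz0 : (dd v (dd w F) (p + s • v) * N (p + s • v) ^ 2 -
              dd w F (p + s • v) * (↑2 * N (p + s • v) ^ (2 - 1) * dd v N (p + s • v))) / (N (p + s • v) ^ 2) ^ 2 = 0 := by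
            have h8 := h5 _ hz (hFz s hs.1 hs') (hne s hs.1 hs')
            rw [← h2 _ hz]
            have : dd v (dd w F) (p + s • v) * N (p + s • v) ^ 2 -
              dd w F (p + s • v) * (↑2 * N (p + s • v) ^ (2 - 1) * dd w F (p + s • v)) = 0 := by
              have h9 : dd v (dd w F) (p + s • v) * N (p + s • v) ^ 2 =
                (dd v (dd w F) (p + s • v) * N (p + s • v)) * N (p + s • v) := by ring
              rw [h9, h8]
              simp only [Nat.add_one_sub_one, pow_one]
              ring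
            rw [this, zero_div]
          have d4 : HasDerivAt (fun s : ℝ => dd w F (p + s • v) / N (p + s • v) ^ 2) 0 s :=
            HasDerivAt.congr_deriv d3 hz0
          exact d4.hasDerivWithinAt) t ⟨h0, le_rfl⟩
      simp only [zero_smul, add_zero] at h7
      rw [div_eq_iff (pow_ne_zero 2 (hne t h0 h6))] at h7
      exact h7
    have hinv : ∀ t, 0 ≤ t → t < τ → N (p + t • v) * (1 / N p - κ * t) = 1 := by
      intro t h0 h6
      have h7 := constant_of_has_deriv_right_zero (f := fun s : ℝ => (N (p + s • v))⁻¹ + κ * s)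
        (a := 0) (b := t) (by
          apply ContinuousOn.add
          · apply ContinuousOn.inv₀
            · exact line_cont (v := v) (p := p) fun s hs =>
                (hN _ (hin s hs.1 (hs.2.trans_lt h6))).continuousAt
            · intro s hs
              exact hne s hs.1 (hs.2.trans_lt h6)
          · fun_prop) (by
          intro s hs
          have hs' : s < τ := hs.2.trans h6
          have hz := hin s hs.1 hs'
          have d2 := hasDerivAt_line (v := v) (p := p) (t := s) (hN _ hz).differentiableAt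
          have d3 := (d2.inv (hne s hs.1 hs')).add ((hasDerivAt_id s).const_mul κ)
          have hz1 : -dd v N (p + s • v) / N (p + s • v) ^ 2 + κ * 1 = 0 := by
            rw [← h2 _ hz, hconst s hs.1 hs']
            have := hne s hs.1 hs'
            field_simp
            ring
          have d4 : HasDerivAt (fun s : ℝ => (N (p + s • v))⁻¹ + κ * s) 0 s :=
            HasDerivAt.congr_deriv d3 hz1
          exact d4.hasDerivWithinAt) t ⟨h0, le_rfl⟩
      simp only [zero_smul, add_zero, mul_zero] at h7
      have h8 : (N (p + t • v))⁻¹ = 1 / N p - κ * t := by rw [one_div, ← h7]; ring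
      rw [← h8]
      exact mul_inv_cancel₀ (hne t h0 h6)
    have hlim : Tendsto (fun t : ℝ => N (p + t • v) * (1 / N p - κ * t)) (𝓝[<] τ)
        (𝓝 (N (p + τ • v) * (1 / N p - κ * τ))) := by
      have c1 : ContinuousAt (fun t : ℝ => N (p + t • v) * (1 / N p - κ * t)) τ := by
        have c2 : ContinuousAt (fun t : ℝ => N (p + t • v)) τ :=
          (hasDerivAt_line (v := v) (p := p) (t := τ) (hN _ (hseg τ hτ)).differentiableAt).continuousAt
        exact c2.mul (by fun_prop)
      exact c1.tendsto.mono_left nhdsWithin_le_nhds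
    have hlim2 : Tendsto (fun t : ℝ => N (p + t • v) * (1 / N p - κ * t)) (𝓝[<] τ) (𝓝 1) := by
      apply tendsto_const_nhds.congr'
      filter_upwards [Ioo_mem_nhdsLT hτ0] with t ht
      exact (hinv t ht.1.le ht.2).symm
    have := tendsto_nhds_unique hlim hlim2
    rw [hNτ', zero_mul] at this
    exact zero_ne_one this
  intro t ht
  exact ⟨hA T le_rfl hB t ht, hB t ht⟩

end scalar

end Pool.Agent.Y235.FE
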