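import Mathlib
import Pool.Agent.Y235.FE.F1

/-!
Rulings of analytic flat surfaces in `ℝ³`.
-/

set_option autoImplicit false

open Set Filter Topology

namespace Pool.Agent.Y235.FE

open scoped RealInnerProductSpace

/-- three-space -/
abbrev E3 := EuclideanSpace ℝ (Fin 3)

/-- an analytic isometric immersion of the open set `U` of the plane -/
structure Iso (ρ : ℂ → E3) (U : Set ℂ) : Prop where
  opn : IsOpen U
  an : AnalyticOnNhd ℝ ρ U
  iso : ∀ z ∈ U, ∀ v : ℂ, ‖fderiv ℝ ρ z v‖ = ‖v‖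

/-- the second derivative -/
noncomputable def BB (ρ : ℂ → E3) (z : ℂ) : ℂ →L[ℝ] ℂ →L[ℝ] E3 := fderiv ℝ (fderiv ℝ ρ) z

section vec

variable {ρ : ℂ → E3} {U : Set ℂ}

theorem Iso.mono {U' : Set ℂ} (h : Iso ρ U) (h' : U' ⊆ U) (ho : IsOpen U') : Iso ρ U' :=
  ⟨ho, fun z hz => h.an z (h' hz), fun z hz => h.iso z (h' hz)⟩

theorem Iso.d1 (h : Iso ρ U) {z : ℂ} (hz : z ∈ U) : AnalyticAt ℝ (fderiv ℝ ρ) z := (h.an z hz).fderiv

theorem Iso.symm (h : Iso ρ U) {z : ℂ} (hz : z ∈ U) (x y : ℂ) : BB ρ z x y = BB ρ z y x :=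
  ((h.an z hz).contDiffAt (n := 2)).isSymmSndFDerivAt (by simp) x y

theorem Iso.inner (h : Iso ρ U) {z : ℂ} (hz : z ∈ U) (x y : ℂ) :
    ⟪fderiv ℝ ρ z x, fderiv ℝ ρ z y⟫ = ⟪x, y⟫ := by
  let L : ℂ →ₗᵢ[ℝ] E3 := ⟨(fderiv ℝ ρ z).toLinearMap, h.iso z hz⟩
  exact L.inner_map_map x y

/-- derivative of `z ↦ ⟪A z x, B z y⟫` -/
theorem inner_deriv {A B : ℂ → ℂ →L[ℝ] E3} {z : ℂ} (hA : DifferentiableAt ℝ A z) (hB : DifferentiableAt ℝ B z)
    (x y u : ℂ) {U : Set ℂ} (hU : IsOpen U) (hz : z ∈ U) {c : ℝ} (hc : ∀ z ∈ U, ⟪A z x, B z y⟫ = c) :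
    ⟪fderiv ℝ A z u x, B z y⟫ + ⟪A z x, fderiv ℝ B z u y⟫ = 0 := by
  have h1 : HasFDerivAt (fun z => A z x) ((ContinuousLinearMap.apply ℝ E3 x).comp (fderiv ℝ A z)) z :=
    (ContinuousLinearMap.apply ℝ E3 x).hasFDerivAt.comp z hA.hasFDerivAt
  have h2 : HasFDerivAt (fun z => B z y) ((ContinuousLinearMap.apply ℝ E3 y).comp (fderiv ℝ B z)) z :=
    (ContinuousLinearMap.apply ℝ E3 y).hasFDerivAt.comp z hB.hasFDerivAt
  have h3 := h1.inner ℝ h2
  have h4 : HasFDerivAt (fun z => ⟪A z x, B z y⟫) (0 : ℂ →L[ℝ] ℝ) z := by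
    apply (hasFDerivAt_const c z).congr_of_eventuallyEq
    filter_upwards [hU.mem_nhds hz] with w hw using hc w hw
  have h5 := congrArg (fun L => L u) (h3.unique h4)
  simp only [ContinuousLinearMap.comp_apply, ContinuousLinearMap.prod_apply, fderivInnerCLM_apply,
    ContinuousLinearMap.apply_apply, _root_.zero_apply] at h5
  linarith

theorem Iso.perp (h : Iso ρ U) {z : ℂ} (hz : z ∈ U) (x u v : ℂ) : ⟪BB ρ z x u, fderiv ℝ ρ z v⟫ = 0 := by
  have key : ∀ x u v : ℂ, ⟪BB ρ z x u, fderiv ℝ ρ z v⟫ = - ⟪BB ρ z x v, fderiv ℝ ρ z u⟫ := by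
    intro x u v
    have := inner_deriv (h.d1 hz).differentiableAt (h.d1 hz).differentiableAt u v x h.opn hz
      (fun z hz => h.inner hz u v)
    rw [real_inner_comm (fderiv ℝ (fderiv ℝ ρ) z x v)] at this
    unfold BB
    linarith
  have e1 := key x u v
  have e2 := key v x u
  have e3 := key u v x
  rw [h.symm hz x v] at e1
  rw [h.symm hz v u] at e2
  rw [h.symm hz u x] at e3
  linarith

theorem Iso.gauss (h : Iso ρ U) {z : ℂ} (hz : z ∈ U) (x u y v : ℂ) :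
    ⟪BB ρ z x u, BB ρ z y v⟫ = ⟪BB ρ z y u, BB ρ z x v⟫ := by
  have hd2 : DifferentiableAt ℝ (fun z => BB ρ z x) z := by
    have : AnalyticAt ℝ (fderiv ℝ (fderiv ℝ ρ)) z := (h.d1 hz).fderiv
    exact (((ContinuousLinearMap.apply ℝ (ℂ →L[ℝ] E3) x).analyticAt _).comp this).differentiableAt
  have hd2' : DifferentiableAt ℝ (fun z => BB ρ z y) z := by
    have : AnalyticAt ℝ (fderiv ℝ (fderiv ℝ ρ)) z := (h.d1 hz).fderiv
    exact (((ContinuousLinearMap.apply ℝ (ℂ →L[ℝ] E3) y).analyticAt _).comp this).differentiableAt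
  have e1 := inner_deriv hd2 (h.d1 hz).differentiableAt u v y h.opn hz (fun z hz => h.perp hz x u v)
  have e2 := inner_deriv hd2' (h.d1 hz).differentiableAt u v x h.opn hz (fun z hz => h.perp hz y u v)
  have e3 : fderiv ℝ (fun z => BB ρ z x) z y = fderiv ℝ (fun z => BB ρ z y) z x := by
    have := dd_comm y x (h.d1 hz)
    exact this
  rw [e3] at e1
  have e4 : ⟪BB ρ z x u, fderiv ℝ (fderiv ℝ ρ) z y v⟫ = ⟪BB ρ z y u, fderiv ℝ (fderiv ℝ ρ) z x v⟫ := by
    linarith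
  exact e4

/-- the second derivatives are parallel to one vector -/
theorem Iso.normal (h : Iso ρ U) {z : ℂ} (hz : z ∈ U) : ∃ n : E3, ∀ x u : ℂ, ∃ a : ℝ, BB ρ z x u = a • n := by
  let L : ℂ →ₗᵢ[ℝ] E3 := ⟨(fderiv ℝ ρ z).toLinearMap, h.iso z hz⟩
  set K : Submodule ℝ E3 := LinearMap.range L.toLinearMap with hK
  have h1 : Module.finrank ℝ K = 2 := by
    rw [hK, LinearMap.finrank_range_of_inj L.injective]
    exact Complex.finrank_real_complex
  have h2 : Module.finrank ℝ Kᗮ = 1 := by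
    have := K.finrank_add_finrank_orthogonal
    rw [h1, finrank_euclideanSpace_fin] at this
    omega
  obtain ⟨n, -, hn⟩ := finrank_eq_one_iff'.1 h2
  refine ⟨n, fun x u => ?_⟩
  have h3 : BB ρ z x u ∈ Kᗮ := by
    rw [Submodule.mem_orthogonal']
    rintro y ⟨v, rfl⟩
    exact h.perp hz x u v
  obtain ⟨a, ha⟩ := hn ⟨_, h3⟩
  exact ⟨a, (congrArg Subtype.val ha).symm⟩

/-- **Ruling lemma** -/
theorem Iso.ruling (h : Iso ρ U) {p v : ℂ} {T : ℝ} (hv : v ≠ 0) (hseg : ∀ t ∈ Icc 0 T, p + t • v ∈ U)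
    (h0 : BB ρ p v = 0) (h1 : BB ρ p ≠ 0) :
    ∀ t ∈ Icc 0 T, BB ρ (p + t • v) v = 0 ∧ BB ρ (p + t • v) ≠ 0 ∧
      fderiv ℝ ρ (p + t • v) = fderiv ℝ ρ p ∧ ρ (p + t • v) = ρ p + t • fderiv ℝ ρ p v := by
  rcases lt_or_ge T 0 with hT | hT
  · intro t ht; exact absurd (ht.1.trans ht.2) (not_le.2 hT)
  have hp : p ∈ U := by simpa using hseg 0 ⟨le_rfl, hT⟩
  set w : ℂ := Complex.I * v with hw
  -- `v, w` is a basis
  have hbasis : ∀ x : ℂ, ∃ a b : ℝ, x = a • v + b • w := by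
    intro x
    refine ⟨(x / v).re, (x / v).im, ?_⟩
    have h2 : x = (x / v) * v := by field_simp
    conv_lhs => rw [h2]
    rw [hw, Complex.real_smul, Complex.real_smul, ← mul_assoc, ← add_mul]
    congr 1
    exact (Complex.re_add_im (x / v)).symm
  have hsum : ∀ z, BB ρ z = 0 ↔ (BB ρ z v = 0 ∧ BB ρ z w = 0) := by
    intro z
    constructor
    · intro h2; rw [h2]; exact ⟨rfl, rfl⟩
    · rintro ⟨h2, h3⟩
      refine ContinuousLinearMap.ext fun x => ContinuousLinearMap.ext fun y => ?_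
      obtain ⟨a, b, rfl⟩ := hbasis x
      have e1 : BB ρ z v y = 0 := by rw [h2]; rfl
      have e2 : BB ρ z w y = 0 := by rw [h3]; rfl
      rw [map_add, map_smul, map_smul]
      change a • BB ρ z v y + b • BB ρ z w y = 0
      rw [e1, e2, smul_zero, smul_zero, add_zero]
  have hsum1 : ∀ (z : ℂ) (x : ℂ), BB ρ z x = 0 ↔ (BB ρ z x v = 0 ∧ BB ρ z x w = 0) := by
    intro z x
    constructor
    · intro h2; rw [h2]; exact ⟨rfl, rfl⟩
    · rintro ⟨h2, h3⟩
      ext1 y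
      obtain ⟨a, b, rfl⟩ := hbasis y
      rw [map_add, map_smul, map_smul, h2, h3]; simp
  have hww : BB ρ p w w ≠ 0 := by
    intro h2
    apply h1
    rw [hsum]
    refine ⟨h0, ?_⟩
    rw [hsum1]
    refine ⟨?_, h2⟩
    rw [h.symm hp, h0]; rfl
  set c : E3 := BB ρ p w w with hc
  have hBan : ∀ z ∈ U, AnalyticAt ℝ (fderiv ℝ (fderiv ℝ ρ)) z := fun z hz => (h.d1 hz).fderiv
  have hBxy : ∀ x y : ℂ, ∀ z ∈ U, AnalyticAt ℝ (fun z => BB ρ z x y) z := by
    intro x y z hz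
    have h2 : AnalyticAt ℝ (fun z => BB ρ z x) z := dd_analyticAt x (h.d1 hz)
    exact ((ContinuousLinearMap.apply ℝ E3 y).analyticAt _).comp h2
  have hBin : ∀ x y : ℂ, AnalyticOnNhd ℝ (fun z => ⟪c, BB ρ z x y⟫) U := by
    intro x y z hz
    exact ((innerSL ℝ c).analyticAt _).comp (hBxy x y z hz)
  -- third derivatives
  have hD : ∀ (u x y : ℂ), ∀ z ∈ U, dd u (fun z => ⟪c, BB ρ z x y⟫) z =
      ⟪c, fderiv ℝ (fderiv ℝ (fderiv ℝ ρ)) z u x y⟫ := by
    intro u x y z hz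
    have h2 : HasFDerivAt (fderiv ℝ (fderiv ℝ ρ)) (fderiv ℝ (fderiv ℝ (fderiv ℝ ρ)) z) z :=
      (hBan z hz).differentiableAt.hasFDerivAt
    have h3 : HasFDerivAt (fun z => BB ρ z x) _ z := hasFDerivAt_dd x (hBan z hz).differentiableAt
    have h4 : HasFDerivAt (fun z => BB ρ z x y) _ z := (ContinuousLinearMap.apply ℝ E3 y).hasFDerivAt.comp z h3
    have h5 := (innerSL ℝ c).hasFDerivAt.comp z h4
    have h6 : fderiv ℝ (fun z => ⟪c, BB ρ z x y⟫) z = _ := h5.fderiv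
    rw [dd, h6]
    rfl
  have hC12 : ∀ (u x y : ℂ), ∀ z ∈ U, fderiv ℝ (fderiv ℝ (fderiv ℝ ρ)) z u x y =
      fderiv ℝ (fderiv ℝ (fderiv ℝ ρ)) z x u y := by
    intro u x y z hz
    have := (((h.d1 hz)).contDiffAt (n := 2)).isSymmSndFDerivAt (by simp) u x
    rw [this]
  have hC23 : ∀ (u x y : ℂ), ∀ z ∈ U, fderiv ℝ (fderiv ℝ (fderiv ℝ ρ)) z u x y =
      fderiv ℝ (fderiv ℝ (fderiv ℝ ρ)) z u y x := by
    intro u x y z hz
    have h2 : HasFDerivAt (fderiv ℝ (fderiv ℝ ρ)) (fderiv ℝ (fderiv ℝ (fderiv ℝ ρ)) z) z :=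
      (hBan z hz).differentiableAt.hasFDerivAt
    have h3' : HasFDerivAt (fun z => BB ρ z x) _ z := hasFDerivAt_dd x (hBan z hz).differentiableAt
    have h3 : HasFDerivAt (fun z => BB ρ z x y) _ z := (ContinuousLinearMap.apply ℝ E3 y).hasFDerivAt.comp z h3'
    have h4' : HasFDerivAt (fun z => BB ρ z y) _ z := hasFDerivAt_dd y (hBan z hz).differentiableAt
    have h4 : HasFDerivAt (fun z => BB ρ z y x) _ z := (ContinuousLinearMap.apply ℝ E3 x).hasFDerivAt.comp z h4'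
    have h5 := h3.congr_of_eventuallyEq (f₁ := fun z => BB ρ z y x) (by
      filter_upwards [h.opn.mem_nhds hz] with z' hz'
      exact h.symm hz' y x)
    have h6 := h5.unique h4
    exact congrArg (fun L => L u) h6
  have hrel : ∀ z ∈ U, ⟪c, BB ρ z v v⟫ * ⟪c, BB ρ z w w⟫ = ⟪c, BB ρ z v w⟫ ^ 2 := by
    intro z hz
    obtain ⟨n, hn⟩ := h.normal hz
    obtain ⟨a1, e1⟩ := hn v v
    obtain ⟨a2, e2⟩ := hn v w
    obtain ⟨a3, e3⟩ := hn w w
    have hg := h.gauss hz v v w w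
    rw [h.symm hz w v, e1, e2, e3, real_inner_smul_left, real_inner_smul_right, real_inner_smul_left,
      real_inner_smul_right] at hg
    rw [e1, e2, e3, real_inner_smul_right, real_inner_smul_right, real_inner_smul_right]
    rcases eq_or_ne n 0 with rfl | hn0
    · simp
    · have h2 : ⟪n, n⟫ ≠ 0 := by rw [Ne, inner_self_eq_zero]; exact hn0
      have h3 : a1 * a3 = a2 * a2 := by
        have : (a1 * a3 - a2 * a2) * ⟪n, n⟫ = 0 := by linarith
        have := (mul_eq_zero.1 this).resolve_right h2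
        linarith
      calc a1 * ⟪c, n⟫ * (a3 * ⟪c, n⟫) = (a1 * a3) * ⟪c, n⟫ ^ 2 := by ring
        _ = (a2 * ⟪c, n⟫) ^ 2 := by rw [h3]; ring
  have hS := scalar_ruling (v := v) (w := w) (p := p) (T := T) h.opn (hBin v v) (hBin v w) (hBin w w) (by
      intro z hz
      rw [hD _ _ _ z hz, hD _ _ _ z hz, hC12 _ _ _ z hz, hC23 v w v z hz]) (by
      intro z hz
      rw [hD _ _ _ z hz, hD _ _ _ z hz, hC12 _ _ _ z hz]) hrel hseg (by
      rw [h0]; simp) (by
      rw [← hc, Ne, inner_self_eq_zero]; exact hww)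
  have hB : ∀ t ∈ Icc 0 T, BB ρ (p + t • v) v = 0 ∧ BB ρ (p + t • v) ≠ 0 := by
    intro t ht
    obtain ⟨hF, hN⟩ := hS t ht
    have hz := hseg t ht
    have hQ : ⟪c, BB ρ (p + t • v) v v⟫ = 0 := by
      have := hrel _ hz
      rw [hF] at this
      have h2 : ⟪c, BB ρ (p + t • v) v v⟫ * ⟪c, BB ρ (p + t • v) w w⟫ = 0 := by rw [this]; ring
      exact (mul_eq_zero.1 h2).resolve_right hN
    obtain ⟨n, hn⟩ := h.normal hz
    obtain ⟨a1, e1⟩ := hn v v
    obtain ⟨a2, e2⟩ := hn v w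
    obtain ⟨a3, e3⟩ := hn w w
    rw [e3, real_inner_smul_right] at hN
    have hcn : ⟪c, n⟫ ≠ 0 := right_ne_zero_of_mul hN
    rw [e1, real_inner_smul_right] at hQ
    rw [e2, real_inner_smul_right] at hF
    have ha1 : a1 = 0 := (mul_eq_zero.1 hQ).resolve_right hcn
    have ha2 : a2 = 0 := (mul_eq_zero.1 hF).resolve_right hcn
    refine ⟨?_, ?_⟩
    · rw [hsum1, e1, e2, ha1, ha2]; simp
    · intro h2
      apply hN
      have h3 : BB ρ (p + t • v) w w = 0 := by rw [h2]; rfl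
      rw [e3] at h3
      rw [← real_inner_smul_right, h3, inner_zero_right]
  have hDc : ∀ t ∈ Icc 0 T, fderiv ℝ ρ (p + t • v) = fderiv ℝ ρ p := by
    intro t ht
    have h2 := constant_of_has_deriv_right_zero (f := fun s : ℝ => fderiv ℝ ρ (p + s • v)) (a := 0) (b := T)
      (by
        intro s hs
        exact (hasDerivAt_line (v := v) (p := p) (t := s)
          (h.d1 (hseg s hs)).differentiableAt).continuousAt.continuousWithinAt) (by
        intro s hs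
        have h3 := hasDerivAt_line (v := v) (p := p) (t := s) (h.d1 (hseg s (Ico_subset_Icc_self hs))).differentiableAt
        have h4 : dd v (fderiv ℝ ρ) (p + s • v) = 0 := (hB s (Ico_subset_Icc_self hs)).1
        rw [h4] at h3
        exact h3.hasDerivWithinAt) t ht
    simpa using h2
  intro t ht
  refine ⟨(hB t ht).1, (hB t ht).2, hDc t ht, ?_⟩
  have h2 := constant_of_has_deriv_right_zero (f := fun s : ℝ => ρ (p + s • v) - s • fderiv ℝ ρ p v) (a := 0) (b := T)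
    (by
      intro s hs
      have h3 := hasDerivAt_line (v := v) (p := p) (t := s) (h.an _ (hseg s hs)).differentiableAt
      have h4 : ContinuousAt (fun s : ℝ => s • fderiv ℝ ρ p v) s := by fun_prop
      exact (h3.continuousAt.sub h4).continuousWithinAt) (by
      intro s hs
      have hs' := Ico_subset_Icc_self hs
      have h3 := hasDerivAt_line (v := v) (p := p) (t := s) (h.an _ (hseg s hs')).differentiableAt
      have h4 := h3.sub ((hasDerivAt_id s).smul_const (fderiv ℝ ρ p v))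
      have h5 : dd v ρ (p + s • v) - (1 : ℝ) • fderiv ℝ ρ p v = 0 := by
        rw [dd, hDc s hs', one_smul, sub_self]
      have h6 : HasDerivAt (fun s : ℝ => ρ (p + s • v) - s • fderiv ℝ ρ p v) 0 s :=
        HasDerivAt.congr_deriv h4 h5
      exact h6.hasDerivWithinAt) t ht
  simp only [zero_smul, add_zero, sub_zero] at h2
  rw [← h2]; abel

end vec

end Pool.Agent.Y235.FE
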