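import Mathlib

/-!
One-variable analytic continuation of a family of lines across two transversals.
-/

set_option autoImplicit false

open Set Filter Topology

namespace Pool.Agent.Y235.FE

/-- an analytic function on an interval that is not zero at one end has isolated zeros -/
theorem ne_zero_punctured {c d : ℝ} {N : ℝ → ℝ} (aN : AnalyticOnNhd ℝ N (Icc c d)) (hcd : c ≤ d)
    (n : N d ≠ 0) {y : ℝ} (hy : y ∈ Icc c d) : ∀ᶠ z in 𝓝[≠] y, N z ≠ 0 := by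
  rcases (aN y hy).eventually_eq_zero_or_eventually_ne_zero with h | h
  · exfalso
    apply n
    exact aN.eqOn_zero_of_preconnected_of_eventuallyEq_zero isPreconnected_Icc hy h ⟨hcd, le_rfl⟩
  · exact h

theorem bdd_order {f : ℝ → ℝ} {y K : ℝ} (hf : MeromorphicNFAt f y) (hb : ∃ᶠ z in 𝓝[≠] y, |f z| ≤ K) :
    AnalyticAt ℝ f y := by
  rw [← hf.meromorphicOrderAt_nonneg_iff_analyticAt]
  by_contra hneg
  push Not at hneg
  have h1 := tendsto_cobounded_of_meromorphicOrderAt_neg hneg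
  have h2 := tendsto_norm_atTop_iff_cobounded.2 h1
  have h3 := h2.eventually_gt_atTop K
  obtain ⟨z, hz1, hz2⟩ := (hb.and_eventually h3).exists
  rw [Real.norm_eq_abs] at hz2
  exact absurd hz1 (not_le.2 hz2)

/-- the normal form of `-M / N` -/
noncomputable def qq (M N : ℝ → ℝ) (c d : ℝ) : ℝ → ℝ := toMeromorphicNFOn (fun y => -M y / N y) (Icc c d)

section qq

variable {c d : ℝ} {M N : ℝ → ℝ}

theorem mer_q (aM : AnalyticOnNhd ℝ M (Icc c d)) (aN : AnalyticOnNhd ℝ N (Icc c d)) :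
    MeromorphicOn (fun y => -M y / N y) (Icc c d) := by
  intro y hy
  exact (aM y hy).neg.meromorphicAt.div (aN y hy).meromorphicAt

theorem qq_nf (y : ℝ) (hy : y ∈ Icc c d) : MeromorphicNFAt (qq M N c d) y :=
  meromorphicNFOn_toMeromorphicNFOn _ _ hy

theorem qq_eq (aM : AnalyticOnNhd ℝ M (Icc c d)) (aN : AnalyticOnNhd ℝ N (Icc c d)) {y : ℝ}
    (hy : y ∈ Icc c d) : (fun y => -M y / N y) =ᶠ[𝓝[≠] y] qq M N c d :=
  ((mer_q aM aN).toMeromorphicNFOn_eq_self_on_nhdsNE hy).symm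

theorem qq_eq' (aM : AnalyticOnNhd ℝ M (Icc c d)) (aN : AnalyticOnNhd ℝ N (Icc c d)) {y : ℝ}
    (hy : y ∈ Icc c d) (hNy : N y ≠ 0) : qq M N c d =ᶠ[𝓝 y] (fun y => -M y / N y) := by
  have h1 : AnalyticAt ℝ (fun y => -M y / N y) y := (aM y hy).neg.div (aN y hy) hNy
  rw [← (qq_nf y hy).eventuallyEq_nhdsNE_iff_eventuallyEq_nhds h1.meromorphicNFAt]
  exact (qq_eq aM aN hy).symm

theorem qq_rel (aM : AnalyticOnNhd ℝ M (Icc c d)) (aN : AnalyticOnNhd ℝ N (Icc c d)) (hcd : c ≤ d)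
    (n : N d ≠ 0) {y : ℝ} (hy : y ∈ Icc c d) (ha : AnalyticAt ℝ (qq M N c d) y) :
    N y * qq M N c d y + M y = 0 := by
  have h1 : ∀ᶠ z in 𝓝[≠] y, N z * qq M N c d z + M z = 0 := by
    filter_upwards [qq_eq aM aN hy, ne_zero_punctured aN hcd n hy] with z h2 h3
    rw [← h2]; field_simp; ring
  have h2 : AnalyticAt ℝ (fun z => N z * qq M N c d z + M z) y := ((aN y hy).mul ha).add (aM y hy)
  exact (h2.frequently_zero_iff_eventually_zero.1 h1.frequently).self_of_nhds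

end qq

section cont

variable {c d κ : ℝ} {N₁ M₁ N₂ M₂ : ℝ → ℝ}

/-- **Continuation lemma** -/
theorem continuation (hcd : c < d) (hκ : 0 < κ)
    (aN₁ : AnalyticOnNhd ℝ N₁ (Icc c d)) (aM₁ : AnalyticOnNhd ℝ M₁ (Icc c d))
    (aN₂ : AnalyticOnNhd ℝ N₂ (Icc c d)) (aM₂ : AnalyticOnNhd ℝ M₂ (Icc c d))
    (n₁ : N₁ d ≠ 0) (m₁ : M₁ d = 0) (n₂ : N₂ d ≠ 0)
    (H : ∀ᶠ y in 𝓝 d, N₂ (y + κ * (-M₁ y / N₁ y)) * (-M₁ y / N₁ y) + M₂ (y + κ * (-M₁ y / N₁ y)) = 0)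
    (Hσ : 0 < 1 + κ * deriv (fun y => -M₁ y / N₁ y) d) :
    ∃ (y₁ : ℝ) (m : ℝ → ℝ), c ≤ y₁ ∧ y₁ < d ∧ AnalyticOnNhd ℝ m (Icc y₁ d) ∧
      m =ᶠ[𝓝 d] (fun y => -M₁ y / N₁ y) ∧
      (∀ y ∈ Icc y₁ d, N₁ y * m y + M₁ y = 0) ∧ (∀ y ∈ Icc y₁ d, y + κ * m y ∈ Icc c d) ∧
      (∀ y ∈ Icc y₁ d, N₂ (y + κ * m y) * m y + M₂ (y + κ * m y) = 0) ∧
      (y₁ = c ∨ y₁ + κ * m y₁ = c) ∧ (∀ᶠ y in 𝓝[>] y₁, N₁ y ≠ 0 ∧ N₂ (y + κ * m y) ≠ 0) := by
  have hd : d ∈ Icc c d := ⟨hcd.le, le_rfl⟩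
  set m : ℝ → ℝ := qq M₁ N₁ c d with hm
  set σ : ℝ → ℝ := fun y => y + κ * m y with hσ
  have hmd : m =ᶠ[𝓝 d] (fun y => -M₁ y / N₁ y) := qq_eq' aM₁ aN₁ hd n₁
  have hamd : AnalyticAt ℝ m d := by
    have h1 : AnalyticAt ℝ (fun y => -M₁ y / N₁ y) d := (aM₁ d hd).neg.div (aN₁ d hd) n₁
    exact h1.congr hmd.symm
  have hσan : ∀ {y}, AnalyticAt ℝ m y → AnalyticAt ℝ σ y := fun {y} h =>
    analyticAt_id.add (analyticAt_const.mul h)
  have hσder : ∀ {y}, AnalyticAt ℝ m y → HasDerivAt σ (1 + κ * deriv m y) y := fun {y} h =>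
    (hasDerivAt_id y).add (h.differentiableAt.hasDerivAt.const_mul κ)
  have hmd0 : m d = 0 := by
    have h1 : m d = -M₁ d / N₁ d := hmd.self_of_nhds
    rw [h1, m₁]; simp
  have hσd : σ d = d := by simp [hσ, hmd0]
  -- the good set
  let P : ℝ → Prop := fun y => AnalyticAt ℝ m y ∧ 0 < deriv σ y ∧ c < σ y ∧ N₂ (σ y) * m y + M₂ (σ y) = 0
  -- openness
  have hopen : ∀ y, AnalyticAt ℝ m y → 0 < deriv σ y → c < σ y → σ y ∈ Icc c d →
      (∃ᶠ z in 𝓝[≠] y, N₂ (σ z) * m z + M₂ (σ z) = 0) → ∀ᶠ z in 𝓝 y, P z := by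
    intro y h1 h2 h3 h4 h5
    have a1 := h1.eventually_analyticAt
    have a2 : ∀ᶠ z in 𝓝 y, 0 < deriv σ z :=
      (hσan h1).deriv.continuousAt.eventually (lt_mem_nhds h2)
    have a3 : ∀ᶠ z in 𝓝 y, c < σ z := (hσan h1).continuousAt.eventually (lt_mem_nhds h3)
    have a4 : AnalyticAt ℝ (fun z => N₂ (σ z) * m z + M₂ (σ z)) y := by
      have b1 : AnalyticAt ℝ (fun z => N₂ (σ z)) y := (aN₂ _ h4).comp (hσan h1)
      have b2 : AnalyticAt ℝ (fun z => M₂ (σ z)) y := (aM₂ _ h4).comp (hσan h1)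
      exact (b1.mul h1).add b2
    have a5 := a4.frequently_zero_iff_eventually_zero.1 h5
    filter_upwards [a1, a2, a3, a5] with z b1 b2 b3 b4 using ⟨b1, b2, b3, b4⟩
  have hPd : ∀ᶠ z in 𝓝 d, P z := by
    apply hopen d hamd _ _ _ _
    · rw [(hσder hamd).deriv, hmd.deriv_eq]; exact Hσ
    · rw [hσd]; exact hcd
    · rw [hσd]; exact hd
    · have h1 : ∀ᶠ z in 𝓝 d, N₂ (σ z) * m z + M₂ (σ z) = 0 := by
        filter_upwards [H, hmd] with z h2 h3
        simp only [hσ, h3]; exact h2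
      exact (h1.filter_mono nhdsWithin_le_nhds).frequently
  let S : Set ℝ := {y₁ | c ≤ y₁ ∧ y₁ ≤ d ∧ ∀ y ∈ Icc y₁ d, P y}
  obtain ⟨l, u, ⟨hl, hu⟩, hlu⟩ := mem_nhds_iff_exists_Ioo_subset.1 hPd
  have hSne : S.Nonempty := ⟨d, hcd.le, le_rfl, fun y hy => hlu ⟨hl.trans_le hy.1, hy.2.trans_lt hu⟩⟩
  have hSbdd : BddBelow S := ⟨c, fun y hy => hy.1⟩
  set y₁ : ℝ := sInf S with hy₁
  have hcy₁ : c ≤ y₁ := le_csInf hSne fun y hy => hy.1
  have hy₁d : y₁ < d := by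
    have h1 : max c ((l + d) / 2) ∈ S := by
      refine ⟨le_max_left _ _, max_le hcd.le (by linarith), fun y hy => hlu ⟨?_, hy.2.trans_lt hu⟩⟩
      have := le_max_right c ((l + d) / 2)
      have := hy.1
      linarith
    have h2 := csInf_le hSbdd h1
    have h3 : max c ((l + d) / 2) < d := max_lt hcd (by linarith)
    linarith
  have hgood : ∀ y, y₁ < y → y ≤ d → P y := by
    intro y h1 h2
    obtain ⟨s, hs, hsy⟩ := exists_lt_of_csInf_lt hSne h1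
    exact hs.2.2 y ⟨hsy.le, h2⟩
  -- monotonicity
  have hmono : StrictMonoOn σ (Ioc y₁ d) := by
    apply strictMonoOn_of_deriv_pos (convex_Ioc _ _)
    · intro y hy
      exact (hσan (hgood y hy.1 hy.2).1).continuousAt.continuousWithinAt
    · intro y hy
      rw [interior_Ioc] at hy
      exact (hgood y hy.1 hy.2.le).2.1
  have hσle : ∀ y, y₁ < y → y ≤ d → σ y ≤ d := by
    intro y h1 h2
    have := hmono.monotoneOn ⟨h1, h2⟩ ⟨hy₁d, le_rfl⟩ h2
    rwa [hσd] at this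
  have hmbd : ∀ y, y₁ < y → y ≤ d → |m y| ≤ (d - c) / κ := by
    intro y h1 h2
    have h3 := (hgood y h1 h2).2.2.1
    have h4 := hσle y h1 h2
    have h5 : m y = (σ y - y) / κ := by simp only [hσ]; field_simp; ring
    rw [h5, abs_div, abs_of_pos hκ]
    apply div_le_div_of_nonneg_right _ hκ.le
    rw [abs_le]
    have := hcy₁
    constructor <;> linarith
  have hy₁mem : y₁ ∈ Icc c d := ⟨hcy₁, hy₁d.le⟩
  have hIoc : ∀ᶠ y in 𝓝[>] y₁, y₁ < y ∧ y ≤ d := by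
    filter_upwards [Ioo_mem_nhdsGT hy₁d] with y hy using ⟨hy.1, hy.2.le⟩
  have hle : 𝓝[>] y₁ ≤ 𝓝[≠] y₁ := nhdsWithin_mono _ fun z hz => (ne_of_gt hz)
  have ham : AnalyticAt ℝ m y₁ := by
    apply bdd_order (qq_nf y₁ hy₁mem) (K := (d - c) / κ)
    have : ∀ᶠ y in 𝓝[>] y₁, |m y| ≤ (d - c) / κ := by
      filter_upwards [hIoc] with y hy using hmbd y hy.1 hy.2
    exact this.frequently.filter_mono hle
  have hσcont : ContinuousAt σ y₁ := (hσan ham).continuousAt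
  have hσt : Tendsto σ (𝓝[>] y₁) (𝓝 (σ y₁)) := hσcont.tendsto.mono_left nhdsWithin_le_nhds
  have hσc : c ≤ σ y₁ := ge_of_tendsto hσt (by
    filter_upwards [hIoc] with y hy using (hgood y hy.1 hy.2).2.2.1.le)
  have hσd' : σ y₁ ≤ d := le_of_tendsto hσt (by
    filter_upwards [hIoc] with y hy using hσle y hy.1 hy.2)
  have hσmem : σ y₁ ∈ Icc c d := ⟨hσc, hσd'⟩
  -- `σ y > σ y₁`
  have hσgt : ∀ y, y₁ < y → y ≤ d → σ y₁ < σ y := by
    intro y h1 h2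
    have h3 : (y₁ + y) / 2 ∈ Ioc y₁ d := ⟨by linarith, by linarith⟩
    have h4 : σ y₁ ≤ σ ((y₁ + y) / 2) := le_of_tendsto hσt (by
      filter_upwards [Ioo_mem_nhdsGT h3.1] with z hz
      exact (hmono.monotoneOn ⟨hz.1, hz.2.le.trans h3.2⟩ h3 hz.2.le))
    have h5 := hmono h3 ⟨h1, h2⟩ (by linarith)
    linarith
  have hσne : Tendsto σ (𝓝[>] y₁) (𝓝[≠] (σ y₁)) := by
    rw [tendsto_nhdsWithin_iff]
    refine ⟨hσt, ?_⟩
    filter_upwards [hIoc] with y hy using (hσgt y hy.1 hy.2).ne'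
  have hE2y : ∀ᶠ y in 𝓝[>] y₁, N₂ (σ y) * m y + M₂ (σ y) = 0 := by
    filter_upwards [hIoc] with y hy using (hgood y hy.1 hy.2).2.2.2
  have hN2 : ∀ᶠ y in 𝓝[>] y₁, N₂ (σ y) ≠ 0 := hσne.eventually (ne_zero_punctured aN₂ hcd.le n₂ hσmem)
  have hN1 : ∀ᶠ y in 𝓝[>] y₁, N₁ y ≠ 0 := (ne_zero_punctured aN₁ hcd.le n₁ hy₁mem).filter_mono hle
  -- analyticity on the other side
  set q : ℝ → ℝ := qq M₂ N₂ c d with hq
  have hmq : ∀ᶠ y in 𝓝[>] y₁, m y = q (σ y) := by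
    filter_upwards [hE2y, hN2, hσne.eventually (qq_eq aM₂ aN₂ hσmem)] with y h1 h2 h3
    change m y = qq M₂ N₂ c d (σ y)
    rw [← h3]; field_simp; linarith
  have hdσ0 : 0 ≤ deriv σ y₁ := by
    have h1 : ContinuousAt (deriv σ) y₁ := (hσan ham).deriv.continuousAt
    apply ge_of_tendsto (h1.tendsto.mono_left (nhdsWithin_le_nhds (s := Ioi y₁)))
    filter_upwards [hIoc] with y hy using (hgood y hy.1 hy.2).2.1.le
  have haq : AnalyticAt ℝ q (σ y₁) := by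
    apply bdd_order (qq_nf (σ y₁) hσmem) (K := (d - c) / κ)
    have : ∀ᶠ y in 𝓝[>] y₁, |q (σ y)| ≤ (d - c) / κ := by
      filter_upwards [hIoc, hmq] with y hy h1
      rw [← h1]; exact hmbd y hy.1 hy.2
    exact hσne.frequently this.frequently
  have hdσ : 0 < deriv σ y₁ := by
    rcases hdσ0.eq_or_lt with h0 | h0
    · exfalso
      have h1 : HasDerivAt (fun y => q (σ y)) (deriv q (σ y₁) * deriv σ y₁) y₁ :=
        haq.differentiableAt.hasDerivAt.comp y₁ (hσan ham).differentiableAt.hasDerivAt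
      have h2 : AnalyticAt ℝ (fun y => m y - q (σ y)) y₁ := ham.sub (haq.comp (hσan ham))
      have h3 : ∃ᶠ y in 𝓝[≠] y₁, m y - q (σ y) = 0 := by
        have : ∀ᶠ y in 𝓝[>] y₁, m y - q (σ y) = 0 := by
          filter_upwards [hmq] with y hy using by rw [hy, sub_self]
        exact this.frequently.filter_mono hle
      have h4 := h2.frequently_zero_iff_eventually_zero.1 h3
      have h5 : m =ᶠ[𝓝 y₁] fun y => q (σ y) := by
        filter_upwards [h4] with y hy using sub_eq_zero.1 hy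
      have h6 : deriv m y₁ = 0 := by
        rw [h5.deriv_eq, h1.deriv, ← h0, mul_zero]
      have h7 := (hσder ham).deriv
      rw [h6, mul_zero, add_zero] at h7
      rw [h7] at h0
      exact zero_ne_one h0
    · exact h0
  -- the end
  have hend : y₁ = c ∨ σ y₁ = c := by
    by_contra hcon
    push Not at hcon
    have h1 : c < y₁ := lt_of_le_of_ne hcy₁ (Ne.symm hcon.1)
    have h2 : c < σ y₁ := lt_of_le_of_ne hσc (Ne.symm hcon.2)
    have h3 := hopen y₁ ham hdσ h2 hσmem (hE2y.frequently.filter_mono hle)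
    obtain ⟨l', u', ⟨hl', hu'⟩, hlu'⟩ := mem_nhds_iff_exists_Ioo_subset.1 h3
    have h4 : max c ((l' + y₁) / 2) ∈ S := by
      refine ⟨le_max_left _ _, max_le hcd.le (by linarith), fun y hy => ?_⟩
      rcases lt_or_ge y₁ y with h5 | h5
      · exact hgood y h5 hy.2
      · apply hlu'
        refine ⟨?_, h5.trans_lt hu'⟩
        have := le_max_right c ((l' + y₁) / 2)
        have := hy.1
        linarith
    have h5 := csInf_le hSbdd h4
    have h6 : max c ((l' + y₁) / 2) < y₁ := max_lt h1 (by linarith)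
    linarith
  have hanall : AnalyticOnNhd ℝ m (Icc y₁ d) := by
    intro y hy
    rcases hy.1.eq_or_lt with h | h
    · rw [← h]; exact ham
    · exact (hgood y h hy.2).1
  refine ⟨y₁, m, hcy₁, hy₁d, hanall, hmd, ?_, ?_, ?_, hend, ?_⟩
  · intro y hy
    exact qq_rel aM₁ aN₁ hcd.le n₁ ⟨hcy₁.trans hy.1, hy.2⟩ (hanall y hy)
  · intro y hy
    rcases hy.1.eq_or_lt with h | h
    · rw [← h]; exact hσmem
    · exact ⟨(hgood y h hy.2).2.2.1.le, hσle y h hy.2⟩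
  · intro y hy
    rcases hy.1.eq_or_lt with h | h
    · rw [← h]
      have a4 : AnalyticAt ℝ (fun z => N₂ (σ z) * m z + M₂ (σ z)) y₁ := by
        have b1 : AnalyticAt ℝ (fun z => N₂ (σ z)) y₁ := (aN₂ _ hσmem).comp (hσan ham)
        have b2 : AnalyticAt ℝ (fun z => M₂ (σ z)) y₁ := (aM₂ _ hσmem).comp (hσan ham)
        exact (b1.mul ham).add b2
      exact (a4.frequently_zero_iff_eventually_zero.1 (hE2y.frequently.filter_mono hle)).self_of_nhds
    · exact (hgood y h hy.2).2.2.2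
  · filter_upwards [hN1, hN2] with y h1 h2 using ⟨h1, h2⟩

end cont

end Pool.Agent.Y235.FE
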