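import Mathlib
import Pool.Agent.Y235.FE.F2
import Pool.Agent.Y235.FE.F3

/-!
Local preparations for the sweeping argument.
-/

set_option autoImplicit false

open Set Filter Topology

namespace Pool.Agent.Y235.FE

open scoped RealInnerProductSpace

section vec

variable {ρ : ℂ → E3} {U : Set ℂ}

/-- composition with a holomorphic map that scales lengths the right way -/
theorem iso_comp {f : ℂ → E3} {S : Set ℂ} {ψ : ℂ → ℂ} {g : ℂ → ℝ} (hf : AnalyticOnNhd ℝ f S)
    (hg : ∀ w ∈ S, ∀ v : ℂ, ‖fderiv ℝ f w v‖ = g w * ‖v‖) (hU : IsOpen U) (hψ : DifferentiableOn ℂ ψ U)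
    (hm : ∀ z ∈ U, ψ z ∈ S) (h1 : ∀ z ∈ U, g (ψ z) * ‖deriv ψ z‖ = 1) : Iso (fun z => f (ψ z)) U := by
  refine ⟨hU, fun z hz => ?_, fun z hz v => ?_⟩
  · have h2 : AnalyticAt ℂ ψ z := hψ.analyticAt (hU.mem_nhds hz)
    exact (hf _ (hm z hz)).comp (h2.restrictScalars (𝕜 := ℝ))
  · have h2 : HasDerivAt ψ (deriv ψ z) z := (hψ.differentiableAt (hU.mem_nhds hz)).hasDerivAt
    have h3 : HasFDerivAt ψ ((ContinuousLinearMap.toSpanSingleton ℂ (deriv ψ z)).restrictScalars ℝ) z :=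
      h2.hasFDerivAt.restrictScalars ℝ
    have h4 := ((hf _ (hm z hz)).differentiableAt.hasFDerivAt.comp z h3).fderiv
    have h5 : fderiv ℝ (fun z => f (ψ z)) z v = fderiv ℝ f (ψ z) (v * deriv ψ z) := by
      change fderiv ℝ (f ∘ ψ) z v = _
      rw [h4]
      simp
    rw [h5, hg _ (hm z hz), norm_mul]
    calc g (ψ z) * (‖v‖ * ‖deriv ψ z‖) = (g (ψ z) * ‖deriv ψ z‖) * ‖v‖ := by ring
      _ = ‖v‖ := by rw [h1 z hz, one_mul]

/-- two vectors normal to the surface are parallel -/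
theorem Iso.par (h : Iso ρ U) {z : ℂ} (hz : z ∈ U) {x y : E3} (hx : ∀ v, ⟪x, fderiv ℝ ρ z v⟫ = 0)
    (hy : ∀ v, ⟪y, fderiv ℝ ρ z v⟫ = 0) (hx0 : x ≠ 0) (hy0 : y ≠ 0) : ⟪x, y⟫ ≠ 0 := by
  let L : ℂ →ₗᵢ[ℝ] E3 := ⟨(fderiv ℝ ρ z).toLinearMap, h.iso z hz⟩
  set K : Submodule ℝ E3 := LinearMap.range L.toLinearMap with hK
  have h1 : Module.finrank ℝ K = 2 := by
    rw [hK, LinearMap.finrank_range_of_inj L.injective]
    exact Complex.finrank_real_complex
  have h2 : Module.finrank ℝ Kᗮ = 1 := by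
    have := K.finrank_add_finrank_orthogonal
    rw [h1, finrank_euclideanSpace_fin] at this
    omega
  have hxK : x ∈ Kᗮ := by
    rw [Submodule.mem_orthogonal']
    rintro _ ⟨v, rfl⟩
    exact hx v
  have hyK : y ∈ Kᗮ := by
    rw [Submodule.mem_orthogonal']
    rintro _ ⟨v, rfl⟩
    exact hy v
  obtain ⟨a, ha⟩ := (finrank_eq_one_iff_of_nonzero' (⟨x, hxK⟩ : Kᗮ) (by
    intro h3; exact hx0 (congrArg Subtype.val h3))).1 h2 ⟨y, hyK⟩
  have ha' : a • x = y := congrArg Subtype.val ha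
  have ha0 : a ≠ 0 := by
    rintro rfl
    rw [zero_smul] at ha'
    exact hy0 ha'.symm
  rw [← ha', real_inner_smul_right]
  exact mul_ne_zero ha0 (by rw [Ne, inner_self_eq_zero]; exact hx0)

/-- the normal form of a kernel direction -/
theorem Iso.ker_line (h : Iso ρ U) {z : ℂ} (hz : z ∈ U) {c : E3} {m : ℝ}
    (hN : ⟪c, BB ρ z Complex.I Complex.I⟫ ≠ 0)
    (hM : ⟪c, BB ρ z Complex.I Complex.I⟫ * m + ⟪c, BB ρ z 1 Complex.I⟫ = 0) :
    BB ρ z (1 + m * Complex.I) = 0 ∧ BB ρ z ≠ 0 := by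
  set v : ℂ := 1 + m * Complex.I with hv
  obtain ⟨n, hn⟩ := h.normal hz
  obtain ⟨a1, e1⟩ := hn v v
  obtain ⟨a2, e2⟩ := hn v Complex.I
  obtain ⟨a3, e3⟩ := hn Complex.I Complex.I
  have hvI : BB ρ z v Complex.I = BB ρ z 1 Complex.I + m • BB ρ z Complex.I Complex.I := by
    have : v = 1 + m • Complex.I := by rw [hv, Complex.real_smul]
    rw [this, map_add, map_smul]; rfl
  have h1 : ⟪c, BB ρ z v Complex.I⟫ = 0 := by
    rw [hvI, inner_add_right, real_inner_smul_right]; linarith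
  have hcn : ⟪c, n⟫ ≠ 0 := by
    rw [e3, real_inner_smul_right] at hN
    exact right_ne_zero_of_mul hN
  have ha2 : a2 = 0 := by
    rw [e2, real_inner_smul_right] at h1
    exact (mul_eq_zero.1 h1).resolve_right hcn
  have hn0 : ⟪n, n⟫ ≠ 0 := by
    rw [Ne, inner_self_eq_zero]
    rintro rfl
    exact hcn (inner_zero_right _)
  have ha3 : a3 ≠ 0 := by
    rintro rfl
    rw [e3, zero_smul, inner_zero_right] at hN
    exact hN rfl
  have hg := h.gauss hz v v Complex.I Complex.I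
  rw [h.symm hz Complex.I v, e1, e2, e3, ha2, zero_smul, inner_zero_left, real_inner_smul_left,
    real_inner_smul_right] at hg
  have ha1 : a1 = 0 := by
    rcases mul_eq_zero.1 hg with h2 | h2
    · exact h2
    · exact absurd h2 (mul_ne_zero ha3 hn0)
  have hvv : BB ρ z v v = 0 := by rw [e1, ha1, zero_smul]
  have hvI0 : BB ρ z v Complex.I = 0 := by rw [e2, ha2, zero_smul]
  refine ⟨?_, ?_⟩
  · refine ContinuousLinearMap.ext fun x => ?_
    have hx : x = x.re • v + (x.im - x.re * m) • Complex.I := by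
      rw [hv, Complex.real_smul, Complex.real_smul]
      apply Complex.ext <;> simp
    rw [hx, map_add, map_smul, map_smul, hvv, hvI0, smul_zero, smul_zero, add_zero]; rfl
  · intro h2
    apply hN
    rw [h2]; simp

theorem Iso.rel_of_ker {z : ℂ} {c : E3} {m : ℝ} (hk : BB ρ z (1 + m * Complex.I) = 0) :
    ⟪c, BB ρ z Complex.I Complex.I⟫ * m + ⟪c, BB ρ z 1 Complex.I⟫ = 0 := by
  have h1 : BB ρ z (1 + m • Complex.I) Complex.I = 0 := by
    rw [Complex.real_smul, hk]; rfl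
  rw [map_add, map_smul] at h1
  have h2 : BB ρ z 1 Complex.I + m • BB ρ z Complex.I Complex.I = 0 := h1
  have h3 := congrArg (fun x => ⟪c, x⟫) h2
  simp only [inner_add_right, real_inner_smul_right, inner_zero_right] at h3
  linarith

theorem BB_analytic (h : Iso ρ U) {z : ℂ} (hz : z ∈ U) (c : E3) (x y : ℂ) :
    AnalyticAt ℝ (fun z => ⟪c, BB ρ z x y⟫) z := by
  have h2 : AnalyticAt ℝ (fun z => BB ρ z x) z := dd_analyticAt x (h.d1 hz)
  have h3 : AnalyticAt ℝ (fun z => BB ρ z x y) z := ((ContinuousLinearMap.apply ℝ E3 y).analyticAt _).comp h2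
  exact ((innerSL ℝ c).analyticAt _).comp h3

theorem BB_congr {ρ' : ℂ → E3} {z : ℂ} (h : ρ =ᶠ[𝓝 z] ρ') : BB ρ z = BB ρ' z := by
  have h1 : fderiv ℝ ρ =ᶠ[𝓝 z] fderiv ℝ ρ' := h.fderiv
  exact h1.fderiv_eq

/-- affine change of variable -/
theorem BB_affine {g : ℂ → E3} {a b z : ℂ} (hg : AnalyticAt ℝ g (a + b * z)) (x y : ℂ) :
    BB (fun z => g (a + b * z)) z x y = BB g (a + b * z) (b * x) (b * y) := by
  let L : ℂ →L[ℝ] ℂ := (ContinuousLinearMap.mul ℝ ℂ b)
  have hA : ∀ z, HasFDerivAt (fun z => a + b * z) L z := by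
    intro z
    have := (L.hasFDerivAt (x := z)).const_add a
    exact this
  have hca : ContinuousAt (fun z => a + b * z) z := (hA z).continuousAt
  have h1 : fderiv ℝ (fun z => g (a + b * z)) =ᶠ[𝓝 z] fun z => (fderiv ℝ g (a + b * z)).comp L := by
    filter_upwards [hca.eventually hg.eventually_analyticAt] with z' hz'
    exact (hz'.differentiableAt.hasFDerivAt.comp z' (hA z')).fderiv
  have h2 : HasFDerivAt (fun z => fderiv ℝ g (a + b * z)) ((fderiv ℝ (fderiv ℝ g) (a + b * z)).comp L) z :=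
    hg.fderiv.differentiableAt.hasFDerivAt.comp z (hA z)
  have h3 : HasFDerivAt (fun z => (fderiv ℝ g (a + b * z)).comp L)
      (((ContinuousLinearMap.compL ℝ ℂ ℂ E3).flip L).comp ((fderiv ℝ (fderiv ℝ g) (a + b * z)).comp L)) z :=
    ((ContinuousLinearMap.compL ℝ ℂ ℂ E3).flip L).hasFDerivAt.comp z h2
  rw [BB, h1.fderiv_eq, h3.fderiv]
  rfl

end vec

end Pool.Agent.Y235.FE
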