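import Mathlib
import Pool.Agent.Y235.FE.F4

/-!
Sweeping rulings across a hole.
-/

set_option autoImplicit false

open Set Filter Topology

namespace Pool.Agent.Y235.FE

open scoped RealInnerProductSpace

/-- a point of the plane -/
noncomputable def P (x y : ℝ) : ℂ := (x : ℂ) + (y : ℂ) * Complex.I

@[simp] theorem P_re (x y : ℝ) : (P x y).re = x := by simp [P]
@[simp] theorem P_im (x y : ℝ) : (P x y).im = y := by simp [P]

theorem P_add (x y t m : ℝ) : P x y + t • (1 + (m : ℂ) * Complex.I) = P (x + t) (y + t * m) := by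
  apply Complex.ext <;> simp

theorem P_sub (x y t m : ℝ) : P x y + t • (-(1 + (m : ℂ) * Complex.I)) = P (x - t) (y - t * m) := by
  apply Complex.ext <;> simp <;> ring

theorem P_add1 (x y t : ℝ) : P x y + t • (1 : ℂ) = P (x + t) y := by
  apply Complex.ext <;> simp

theorem P_sub1 (x y t : ℝ) : P x y + t • (-1 : ℂ) = P (x - t) y := by
  apply Complex.ext <;> simp; ring

theorem P_an (x : ℝ) {s : ℝ → ℝ} {y : ℝ} (hs : AnalyticAt ℝ s y) : AnalyticAt ℝ (fun y => P x (s y)) y :=
  analyticAt_const.add (((Complex.ofRealCLM.analyticAt _).comp hs).mul analyticAt_const)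

theorem P_norm_le (x y : ℝ) : ‖P x y‖ ≤ |x| + |y| := by
  have := Complex.norm_le_abs_re_add_abs_im (P x y)
  simpa using this

theorem P_norm_im (x y : ℝ) : |y| ≤ ‖P x y‖ := by
  have := Complex.abs_im_le_norm (P x y)
  simpa using this

theorem P_norm_re (x y : ℝ) : |x| ≤ ‖P x y‖ := by
  have := Complex.abs_re_le_norm (P x y)
  simpa using this

/-- a strip -/
def Str (ε R lo hi : ℝ) : Set ℂ := {w | Real.log ε < w.re ∧ w.re < Real.log R ∧ lo < w.im ∧ w.im < hi}

/-- an isometric immersion of the logarithmic cover -/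
structure StrIso (f : ℂ → E3) (S : Set ℂ) : Prop where
  an : AnalyticOnNhd ℝ f S
  iso : ∀ w ∈ S, ∀ v : ℂ, ‖fderiv ℝ f w v‖ = Real.exp w.re * ‖v‖

/-- right sheet -/
noncomputable def rR (f : ℂ → E3) (z : ℂ) : E3 := f (Complex.log z)

/-- left sheet -/
noncomputable def rL (f : ℂ → E3) (z : ℂ) : E3 := f (Complex.log (-z) + Real.pi * Complex.I)

/-- domain of the right sheet -/
def UR (ε R : ℝ) : Set ℂ := {z | z ∈ Complex.slitPlane ∧ ε < ‖z‖ ∧ ‖z‖ < R}

/-- domain of the left sheet -/
def UL (ε R : ℝ) : Set ℂ := {z | -z ∈ Complex.slitPlane ∧ ε < ‖z‖ ∧ ‖z‖ < R}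

theorem isOpen_UR (ε R : ℝ) : IsOpen (UR ε R) :=
  Complex.isOpen_slitPlane.inter ((isOpen_lt continuous_const continuous_norm).inter
    (isOpen_lt continuous_norm continuous_const))

theorem isOpen_UL (ε R : ℝ) : IsOpen (UL ε R) :=
  (Complex.isOpen_slitPlane.preimage continuous_neg).inter ((isOpen_lt continuous_const continuous_norm).inter
    (isOpen_lt continuous_norm continuous_const))

section core

variable {ε R : ℝ} {f : ℂ → E3}

theorem log_mem {z : ℂ} (hε : 0 < ε) (hz : z ∈ UR ε R) : Complex.log z ∈ Str ε R (-Real.pi) (2 * Real.pi) := by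
  obtain ⟨h1, h2, h3⟩ := hz
  refine ⟨?_, ?_, ?_, ?_⟩
  · rw [Complex.log_re]; exact Real.log_lt_log hε h2
  · rw [Complex.log_re]; exact Real.log_lt_log (hε.trans h2) h3
  · exact Complex.neg_pi_lt_log_im z
  · have := Complex.log_im_le_pi z
    linarith [Real.pi_pos]

theorem log_mem' {z : ℂ} (hε : 0 < ε) (hz : z ∈ UL ε R) :
    Complex.log (-z) + Real.pi * Complex.I ∈ Str ε R (-Real.pi) (2 * Real.pi) := by
  obtain ⟨h1, h2, h3⟩ := hz
  have e1 : (Complex.log (-z) + Real.pi * Complex.I).re = Real.log ‖z‖ := by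
    simp [Complex.log_re]
  have e2 : (Complex.log (-z) + Real.pi * Complex.I).im = (Complex.log (-z)).im + Real.pi := by simp
  refine ⟨?_, ?_, ?_, ?_⟩
  · rw [e1]; exact Real.log_lt_log hε h2
  · rw [e1]; exact Real.log_lt_log (hε.trans h2) h3
  · rw [e2]
    have := Complex.neg_pi_lt_log_im (-z)
    linarith [Real.pi_pos]
  · rw [e2]
    have h4 : (Complex.log (-z)).im < Real.pi := by
      rw [Complex.log_im]
      exact lt_of_le_of_ne (Complex.arg_le_pi _) (Complex.mem_slitPlane_iff_arg.1 h1).1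
    linarith

theorem iso_R (hε : 0 < ε) (hf : StrIso f (Str ε R (-Real.pi) (2 * Real.pi))) : Iso (rR f) (UR ε R) := by
  apply iso_comp (g := fun w => Real.exp w.re) hf.an hf.iso (isOpen_UR ε R)
  · intro z hz
    exact (Complex.hasDerivAt_log hz.1).differentiableAt.differentiableWithinAt
  · intro z hz; exact log_mem hε hz
  · intro z hz
    have h0 : 0 < ‖z‖ := hε.trans hz.2.1
    rw [(Complex.hasDerivAt_log hz.1).deriv, Complex.log_re, Real.exp_log h0, norm_inv, mul_inv_cancel₀ h0.ne']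

theorem iso_L (hε : 0 < ε) (hf : StrIso f (Str ε R (-Real.pi) (2 * Real.pi))) : Iso (rL f) (UL ε R) := by
  have hder : ∀ z ∈ UL ε R, HasDerivAt (fun z => Complex.log (-z) + Real.pi * Complex.I) (z⁻¹) z := by
    intro z hz
    have h1 := ((Complex.hasDerivAt_log hz.1).comp z (hasDerivAt_neg z)).add_const (Real.pi * Complex.I)
    have h2 : (-z)⁻¹ * -1 = z⁻¹ := by rw [inv_neg]; ring
    rw [h2] at h1
    exact h1
  apply iso_comp (g := fun w => Real.exp w.re) hf.an hf.iso (isOpen_UL ε R)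
  · intro z hz
    exact (hder z hz).differentiableAt.differentiableWithinAt
  · intro z hz; exact log_mem' hε hz
  · intro z hz
    have h0 : 0 < ‖z‖ := hε.trans hz.2.1
    have e1 : (Complex.log (-z) + Real.pi * Complex.I).re = Real.log ‖z‖ := by
      simp [Complex.log_re]
    rw [(hder z hz).deriv, e1, Real.exp_log h0, norm_inv, mul_inv_cancel₀ h0.ne']

theorem rL_eq_rR {z : ℂ} (hz : 0 < z.im) : rL f z = rR f z := by
  rw [rL, rR]
  congr 1
  apply Complex.ext
  · simp [Complex.log_re]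
  · simp only [Complex.add_im, Complex.log_im, Complex.mul_im, Complex.ofReal_re, Complex.I_im, mul_one,
      Complex.ofReal_im, Complex.I_re, mul_zero, add_zero]
    rw [Complex.arg_neg_eq_arg_sub_pi_of_im_pos hz]; ring

theorem rL_ev {z : ℂ} (hz : 0 < z.im) : rL f =ᶠ[𝓝 z] rR f := by
  filter_upwards [(isOpen_lt continuous_const Complex.continuous_im).mem_nhds hz] with w hw
  exact rL_eq_rR hw

end core

end Pool.Agent.Y235.FE
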