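import Mathlib
import Pool.Agent.Y235.FE.F5

/-!
The sweeping argument.
-/

set_option autoImplicit false

open Set Filter Topology

namespace Pool.Agent.Y235.FE

open scoped RealInnerProductSpace

section core

variable {ε R : ℝ} {f : ℂ → E3}

theorem II_ne {ρ : ℂ → E3} {U : Set ℂ} (h : Iso ρ U) {z : ℂ} (hz : z ∈ U) {m : ℝ}
    (h0 : BB ρ z (1 + m * Complex.I) = 0) (h1 : BB ρ z ≠ 0) : BB ρ z Complex.I Complex.I ≠ 0 := by
  intro h2
  apply h1
  set v : ℂ := 1 + m * Complex.I with hv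
  have hx : ∀ x : ℂ, x = x.re • v + (x.im - x.re * m) • Complex.I := by
    intro x
    rw [hv, Complex.real_smul, Complex.real_smul]
    apply Complex.ext <;> simp
  have hIv : BB ρ z Complex.I v = 0 := by rw [h.symm hz, h0]; rfl
  have hIy : ∀ y, BB ρ z Complex.I y = 0 := by
    intro y
    rw [hx y, map_add, map_smul, map_smul, hIv, h2, smul_zero, smul_zero, add_zero]
  have hvy : ∀ y, BB ρ z v y = 0 := by
    intro y
    rw [h0]; rfl
  refine ContinuousLinearMap.ext fun x => ContinuousLinearMap.ext fun y => ?_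
  rw [hx x, map_add, map_smul, map_smul]
  change x.re • BB ρ z v y + (x.im - x.re * m) • BB ρ z Complex.I y = 0
  rw [hvy, hIy, smul_zero, smul_zero, add_zero]

/-- a point in the domains -/
theorem memUR {x y : ℝ} (h0 : 0 < x ∨ y ≠ 0) (h1 : ε < ‖P x y‖) (h2 : |x| + |y| < R) : P x y ∈ UR ε R := by
  refine ⟨?_, h1, (P_norm_le x y).trans_lt h2⟩
  rw [Complex.mem_slitPlane_iff, P_re, P_im]
  exact h0

theorem memUL {x y : ℝ} (h0 : x < 0 ∨ y ≠ 0) (h1 : ε < ‖P x y‖) (h2 : |x| + |y| < R) : P x y ∈ UL ε R := by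
  refine ⟨?_, h1, (P_norm_le x y).trans_lt h2⟩
  rw [Complex.mem_slitPlane_iff, Complex.neg_re, Complex.neg_im, P_re, P_im]
  rcases h0 with h | h
  · left; linarith
  · right; exact neg_ne_zero.2 h

/-- **Sweeping lemma**, horizontal ruling -/
theorem sweep_core {x₀ d : ℝ} (hε : 0 < ε) (hd : ε < d) (h4 : 4 * ε ≤ ‖P x₀ d‖) (hR : 6 * ‖P x₀ d‖ < R)
    (hf : StrIso f (Str ε R (-Real.pi) (2 * Real.pi)))
    (h0 : BB (rR f) (P x₀ d) 1 = 0) (h1 : BB (rR f) (P x₀ d) ≠ 0) :
    ∃ w₁ ∈ Str ε R (-Real.pi) (2 * Real.pi), ∃ w₂ ∈ Str ε R (-Real.pi) (2 * Real.pi),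
      w₁ ≠ w₂ ∧ Complex.exp w₁ = Complex.exp w₂ ∧ f w₁ = f w₂ := by
  have hRi := iso_R hε hf
  have hLi := iso_L hε hf
  set n0 : ℝ := ‖P x₀ d‖ with hn0
  set M : ℝ := 3 * n0 with hM
  have hd0 : 0 < d := hε.trans hd
  have hdn : d ≤ n0 := by have := P_norm_im x₀ d; rwa [abs_of_pos hd0] at this
  have hxn : |x₀| ≤ n0 := P_norm_re x₀ d
  have hn00 : 0 < n0 := hd0.trans_le hdn
  have hM0 : 0 < M := by positivity
  have hx1 : x₀ ≤ M := (le_abs_self _).trans (by linarith)
  have hx2 : -M ≤ x₀ := by have := neg_abs_le x₀; linarith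
  -- points on the upper side
  have hup : ∀ x y : ℝ, |x| ≤ M → ε < y → y < d + n0 → P x y ∈ UR ε R := by
    intro x y hx hy hy2
    have hy0 : 0 < y := hε.trans hy
    apply memUR (Or.inr hy0.ne')
    · have := P_norm_im x y
      rw [abs_of_pos hy0] at this
      linarith
    · rw [abs_of_pos hy0]; linarith
  -- Step 1
  have htop : ∀ x ∈ Icc (-M) M, BB (rR f) (P x d) 1 = 0 ∧ BB (rR f) (P x d) ≠ 0 ∧
      fderiv ℝ (rR f) (P x d) = fderiv ℝ (rR f) (P x₀ d) := by
    intro x hx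
    rcases le_total x₀ x with hle | hle
    · have h2 := hRi.ruling (p := P x₀ d) (v := 1) (T := x - x₀) one_ne_zero (by
        intro t ht
        rw [P_add1]
        apply hup _ _ _ hd (by linarith)
        rw [abs_le]; constructor <;> linarith [ht.1, ht.2, hx.2]) h0 h1 (x - x₀) ⟨by linarith, le_rfl⟩
      rw [P_add1] at h2
      have e : x₀ + (x - x₀) = x := by ring
      rw [e] at h2
      exact ⟨h2.1, h2.2.1, h2.2.2.1⟩
    · have h2 := hRi.ruling (p := P x₀ d) (v := -1) (T := x₀ - x) (by simp) (by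
        intro t ht
        rw [P_sub1]
        apply hup _ _ _ hd (by linarith)
        rw [abs_le]; constructor <;> linarith [ht.1, ht.2, hx.1]) (by rw [map_neg, h0, neg_zero]) h1
        (x₀ - x) ⟨by linarith, le_rfl⟩
      rw [P_sub1] at h2
      have e : x₀ - (x₀ - x) = x := by ring
      rw [e] at h2
      refine ⟨?_, h2.2.1, h2.2.2.1⟩
      have := h2.1
      rw [map_neg, neg_eq_zero] at this
      exact this
  have hmemd : ∀ x ∈ Icc (-M) M, P x d ∈ UR ε R := by
    intro x hx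
    exact hup x d (abs_le.2 hx) hd (by linarith)
  -- the normal vector
  have hz0 : P x₀ d ∈ UR ε R := hmemd x₀ ⟨hx2, hx1⟩
  set c : E3 := BB (rR f) (P x₀ d) Complex.I Complex.I with hc
  have hker : ∀ x ∈ Icc (-M) M, BB (rR f) (P x d) (1 + ((0 : ℝ) : ℂ) * Complex.I) = 0 := by
    intro x hx
    have : (1 + ((0 : ℝ) : ℂ) * Complex.I) = 1 := by simp
    rw [this]; exact (htop x hx).1
  have hc0 : c ≠ 0 := II_ne hRi hz0 (hker x₀ ⟨hx2, hx1⟩) h1
  set A : ℝ → ℝ → ℝ := fun x y => ⟪c, BB (rR f) (P x y) Complex.I Complex.I⟫ with hA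
  set B : ℝ → ℝ → ℝ := fun x y => ⟪c, BB (rR f) (P x y) 1 Complex.I⟫ with hB
  have hAd : ∀ x ∈ Icc (-M) M, A x d ≠ 0 := by
    intro x hx
    have hz := hmemd x hx
    apply hRi.par hz (x := c) (y := BB (rR f) (P x d) Complex.I Complex.I)
    · intro v
      rw [(htop x hx).2.2]
      exact hRi.perp hz0 _ _ v
    · intro v; exact hRi.perp hz _ _ v
    · exact hc0
    · exact II_ne hRi hz (hker x hx) (htop x hx).2.1
  have hBd : ∀ x ∈ Icc (-M) M, B x d = 0 := by
    intro x hx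
    simp only [hB]
    rw [(htop x hx).1]; simp
  have hAan : ∀ x y, P x y ∈ UR ε R → AnalyticAt ℝ (A x) y := by
    intro x y h
    exact (BB_analytic hRi h c Complex.I Complex.I).comp (P_an x analyticAt_id)
  have hBan : ∀ x y, P x y ∈ UR ε R → AnalyticAt ℝ (B x) y := by
    intro x y h
    exact (BB_analytic hRi h c 1 Complex.I).comp (P_an x analyticAt_id)
  have hMm : -M ∈ Icc (-M) M := ⟨le_rfl, by linarith⟩
  have hMp : M ∈ Icc (-M) M := ⟨by linarith, le_rfl⟩
  set m₀ : ℝ → ℝ := fun y => -B (-M) y / A (-M) y with hm₀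
  have hm₀an : AnalyticAt ℝ m₀ d := (hBan _ _ (hmemd _ hMm)).neg.div (hAan _ _ (hmemd _ hMm)) (hAd _ hMm)
  have hm₀d : m₀ d = 0 := by simp only [hm₀]; rw [hBd _ hMm]; simp
  -- the segments near the top line
  have hsmall : ∀ᶠ y in 𝓝 d, 2 * M * |m₀ y| + |y - d| < min (d - ε) n0 := by
    have h2 : ContinuousAt (fun y => 2 * M * |m₀ y| + |y - d|) d := by
      have := hm₀an.continuousAt
      fun_prop
    have h3 : (fun y => 2 * M * |m₀ y| + |y - d|) d = 0 := by simp [hm₀d]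
    have h4 : (fun y => 2 * M * |m₀ y| + |y - d|) d < min (d - ε) n0 := by
      rw [h3]; exact lt_min (by linarith) hn00
    exact h2.eventually (gt_mem_nhds h4)
  have hseg : ∀ᶠ y in 𝓝 d, ∀ t ∈ Icc 0 (2 * M), |(-M + t)| ≤ M ∧ ε < y + t * m₀ y ∧ y + t * m₀ y < d + n0 := by
    filter_upwards [hsmall] with y hy t ht
    have h2 : |t * m₀ y| ≤ 2 * M * |m₀ y| := by
      rw [abs_mul, abs_of_nonneg ht.1]
      exact mul_le_mul_of_nonneg_right ht.2 (abs_nonneg _)
    have h3 := (abs_le.1 h2)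
    have h5 := neg_abs_le (y - d)
    have h6 := le_abs_self (y - d)
    have h7 := lt_min_iff.1 hy
    refine ⟨?_, ?_, ?_⟩
    · rw [abs_le]; constructor <;> linarith [ht.1, ht.2]
    · linarith [h7.1, h3.1]
    · linarith [h7.2, h3.2]
  have hAne : ∀ᶠ y in 𝓝 d, A (-M) y ≠ 0 := (hAan _ _ (hmemd _ hMm)).continuousAt.eventually_ne (hAd _ hMm)
  have hrul : ∀ᶠ y in 𝓝 d, ∀ t ∈ Icc 0 (2 * M),
      BB (rR f) (P (-M + t) (y + t * m₀ y)) (1 + (m₀ y : ℂ) * Complex.I) = 0 ∧
      fderiv ℝ (rR f) (P (-M + t) (y + t * m₀ y)) = fderiv ℝ (rR f) (P (-M) y) ∧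
      rR f (P (-M + t) (y + t * m₀ y)) = rR f (P (-M) y) +
        t • fderiv ℝ (rR f) (P (-M) y) (1 + (m₀ y : ℂ) * Complex.I) := by
    filter_upwards [hseg, hAne] with y hy1 hy2 t ht
    have hmem : ∀ t ∈ Icc 0 (2 * M), P (-M) y + t • (1 + (m₀ y : ℂ) * Complex.I) ∈ UR ε R := by
      intro t ht
      rw [P_add]
      obtain ⟨a1, a2, a3⟩ := hy1 t ht
      exact hup _ _ a1 a2 a3
    have hp : P (-M) y ∈ UR ε R := by
      have := hmem 0 ⟨le_rfl, by linarith⟩
      simpa using this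
    have hk := hRi.ker_line hp (c := c) (m := m₀ y) hy2 (by
      change A (-M) y * m₀ y + B (-M) y = 0
      simp only [hm₀]; field_simp; ring)
    have hv : (1 + (m₀ y : ℂ) * Complex.I) ≠ 0 := by
      intro h
      have := congrArg Complex.re h
      simp at this
    have h2 := hRi.ruling hv hmem hk.1 hk.2 t ht
    rw [P_add] at h2
    exact ⟨h2.1, h2.2.2.1, h2.2.2.2⟩
  have hrel : ∀ᶠ y in 𝓝 d, ∀ t ∈ Icc 0 (2 * M), A (-M + t) (y + t * m₀ y) * m₀ y + B (-M + t) (y + t * m₀ y) = 0 := by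
    filter_upwards [hrul] with y hy t ht
    exact Iso.rel_of_ker (hy t ht).1
  -- Step 5: the lines do not cross
  have hσ' : 0 < 1 + 2 * M * deriv m₀ d := by
    by_contra hneg
    push Not at hneg
    have hneg' : deriv m₀ d < 0 := by
      by_contra h2
      push Not at h2
      have : 0 ≤ 2 * M * deriv m₀ d := by positivity
      linarith
    set t : ℝ := -1 / deriv m₀ d with ht
    have ht0 : 0 < t := div_pos_of_neg_of_neg (by norm_num) hneg'
    have htm : t * deriv m₀ d = -1 := by rw [ht, div_mul_cancel₀ _ hneg'.ne]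
    have htM : t ≤ 2 * M := by
      by_contra h2
      push Not at h2
      have := mul_lt_mul_of_neg_right h2 hneg'
      linarith
    have htI : t ∈ Icc 0 (2 * M) := ⟨ht0.le, htM⟩
    have hxI : -M + t ∈ Icc (-M) M := ⟨by linarith, by linarith⟩
    have hqan : AnalyticAt ℝ (fun y => -B (-M + t) y / A (-M + t) y) d :=
      (hBan _ _ (hmemd _ hxI)).neg.div (hAan _ _ (hmemd _ hxI)) (hAd _ hxI)
    have hsan : HasDerivAt (fun y => y + t * m₀ y) (1 + t * deriv m₀ d) d :=
      (hasDerivAt_id d).add (hm₀an.differentiableAt.hasDerivAt.const_mul t)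
    have hsd : d + t * m₀ d = d := by rw [hm₀d]; ring
    have hev : m₀ =ᶠ[𝓝 d] fun y => -B (-M + t) (y + t * m₀ y) / A (-M + t) (y + t * m₀ y) := by
      have h3 : ContinuousAt (fun y => A (-M + t) (y + t * m₀ y)) d := by
        have h5 : ContinuousAt (A (-M + t)) (d + t * m₀ d) := by
          rw [hsd]; exact (hAan _ _ (hmemd _ hxI)).continuousAt
        exact ContinuousAt.comp (f := fun y => y + t * m₀ y) h5 hsan.continuousAt
      have h6 : (fun y => A (-M + t) (y + t * m₀ y)) d ≠ 0 := by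
        simp only [hsd]; exact hAd _ hxI
      filter_upwards [hrel, h3.eventually_ne h6] with y h7 h8
      have := h7 t htI
      rw [eq_div_iff h8]; linarith
    have hder : HasDerivAt (fun y => -B (-M + t) (y + t * m₀ y) / A (-M + t) (y + t * m₀ y))
        (deriv (fun y => -B (-M + t) y / A (-M + t) y) d * (1 + t * deriv m₀ d)) d := by
      have h5 : HasDerivAt (fun y => -B (-M + t) y / A (-M + t) y)
          (deriv (fun y => -B (-M + t) y / A (-M + t) y) d) (d + t * m₀ d) := by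
        rw [hsd]; exact hqan.differentiableAt.hasDerivAt
      exact h5.comp d hsan
    have h9 : deriv m₀ d = 0 := by
      rw [hev.deriv_eq, hder.deriv, htm]; ring
    rw [h9] at hneg'
    exact lt_irrefl _ hneg'
  -- the two transversals
  have hmL : ∀ y ∈ Icc (-M) d, P (-M) y ∈ UL ε R := by
    intro y hy
    have h2 : |y| ≤ M := abs_le.2 ⟨hy.1, by linarith [hy.2]⟩
    apply memUL (Or.inl (by linarith))
    · have := P_norm_re (-M) y
      rw [abs_neg, abs_of_pos hM0] at this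
      linarith
    · rw [abs_neg, abs_of_pos hM0]; linarith
  have hmR : ∀ y ∈ Icc (-M) d, P M y ∈ UR ε R := by
    intro y hy
    have h2 : |y| ≤ M := abs_le.2 ⟨hy.1, by linarith [hy.2]⟩
    apply memUR (Or.inl hM0)
    · have := P_norm_re M y
      rw [abs_of_pos hM0] at this
      linarith
    · rw [abs_of_pos hM0]; linarith
  set N₁ : ℝ → ℝ := fun y => ⟪c, BB (rL f) (P (-M) y) Complex.I Complex.I⟫ with hN₁
  set M₁ : ℝ → ℝ := fun y => ⟪c, BB (rL f) (P (-M) y) 1 Complex.I⟫ with hM₁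
  have hpos : ∀ᶠ y in 𝓝 d, 0 < y := lt_mem_nhds hd0
  have hN₁A : ∀ y, 0 < y → N₁ y = A (-M) y := by
    intro y hy
    simp only [hN₁, hA]
    rw [BB_congr (rL_ev (f := f) (z := P (-M) y) (by rw [P_im]; exact hy))]
  have hM₁B : ∀ y, 0 < y → M₁ y = B (-M) y := by
    intro y hy
    simp only [hM₁, hB]
    rw [BB_congr (rL_ev (f := f) (z := P (-M) y) (by rw [P_im]; exact hy))]
  have hm₁ev : (fun y => -M₁ y / N₁ y) =ᶠ[𝓝 d] m₀ := by
    filter_upwards [hpos] with y hy
    rw [hN₁A y hy, hM₁B y hy]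
  obtain ⟨y₁, m, hy1, hy1d, hman, hmev, hrel1, hσmem, hrel2, hend, hne⟩ := continuation (c := -M) (d := d)
    (κ := 2 * M) (N₁ := N₁) (M₁ := M₁) (N₂ := A M) (M₂ := B M) (by linarith) (by linarith)
    (fun y hy => (BB_analytic hLi (hmL y hy) c Complex.I Complex.I).comp (P_an (-M) analyticAt_id))
    (fun y hy => (BB_analytic hLi (hmL y hy) c 1 Complex.I).comp (P_an (-M) analyticAt_id))
    (fun y hy => hAan _ _ (hmR y hy)) (fun y hy => hBan _ _ (hmR y hy))
    (by rw [hN₁A d hd0]; exact hAd _ hMm) (by rw [hM₁B d hd0]; exact hBd _ hMm) (hAd _ hMp)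
    (by
      filter_upwards [hrel, hm₁ev] with y h2 h3
      rw [h3]
      have h5 := h2 (2 * M) ⟨by linarith, le_rfl⟩
      have e : -M + 2 * M = M := by ring
      rw [e] at h5
      exact h5)
    (by rw [hm₁ev.deriv_eq]; exact hσ')
  set σ : ℝ → ℝ := fun y => y + 2 * M * m y with hσ
  have hmm₀ : m =ᶠ[𝓝 d] m₀ := hmev.trans hm₁ev
  have hσan : ∀ y ∈ Icc y₁ d, AnalyticAt ℝ σ y := fun y hy =>
    analyticAt_id.add (analyticAt_const.mul (hman y hy))
  have hyI : ∀ y ∈ Icc y₁ d, y ∈ Icc (-M) d := fun y hy => ⟨hy1.trans hy.1, hy.2⟩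
  -- Step 7
  have hWan : AnalyticOnNhd ℝ (fun y => rR f (P M (σ y)) - rL f (P (-M) y) -
      (2 * M) • (dd 1 (rL f) (P (-M) y) + m y • dd Complex.I (rL f) (P (-M) y))) (Icc y₁ d) := by
    intro y hy
    have a0 : AnalyticAt ℝ (fun y => P M (σ y)) y := P_an M (hσan y hy)
    have a1 : AnalyticAt ℝ (fun y => rR f (P M (σ y))) y :=
      AnalyticAt.comp (f := fun y => P M (σ y)) (hRi.an _ (hmR _ (hσmem y hy))) a0
    have a2 : AnalyticAt ℝ (fun y => rL f (P (-M) y)) y :=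
      (hLi.an _ (hmL _ (hyI y hy))).comp (P_an (-M) analyticAt_id)
    have a3 : AnalyticAt ℝ (fun y => dd 1 (rL f) (P (-M) y)) y :=
      (dd_analyticAt 1 (hLi.an _ (hmL _ (hyI y hy)))).comp (P_an (-M) analyticAt_id)
    have a4 : AnalyticAt ℝ (fun y => dd Complex.I (rL f) (P (-M) y)) y :=
      (dd_analyticAt Complex.I (hLi.an _ (hmL _ (hyI y hy)))).comp (P_an (-M) analyticAt_id)
    have a5 : AnalyticAt ℝ (fun y => dd 1 (rL f) (P (-M) y) + m y • dd Complex.I (rL f) (P (-M) y)) y :=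
      a3.add ((hman y hy).smul a4)
    have a6 : AnalyticAt ℝ (fun y => (2 * M) • (dd 1 (rL f) (P (-M) y) +
        m y • dd Complex.I (rL f) (P (-M) y))) y := (analyticAt_const (v := 2 * M)).smul a5
    exact (a1.sub a2).sub a6
  have hWan' : AnalyticOnNhd ℝ (fun y => fderiv ℝ (rR f) (P M (σ y)) - fderiv ℝ (rL f) (P (-M) y)) (Icc y₁ d) := by
    intro y hy
    have a0 : AnalyticAt ℝ (fun y => P M (σ y)) y := P_an M (hσan y hy)
    have a1 : AnalyticAt ℝ (fun y => fderiv ℝ (rR f) (P M (σ y))) y :=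
      AnalyticAt.comp (f := fun y => P M (σ y)) (hRi.d1 (hmR _ (hσmem y hy))) a0
    have a2 : AnalyticAt ℝ (fun y => fderiv ℝ (rL f) (P (-M) y)) y :=
      (hLi.d1 (hmL _ (hyI y hy))).comp (P_an (-M) analyticAt_id)
    exact a1.sub a2
  have hlin : ∀ (L : ℂ →L[ℝ] E3) (m : ℝ), L (1 + (m : ℂ) * Complex.I) = L 1 + m • L Complex.I := by
    intro L m
    rw [← Complex.real_smul, map_add, map_smul]
  have hLRd : ∀ y, 0 < y → fderiv ℝ (rL f) (P (-M) y) = fderiv ℝ (rR f) (P (-M) y) := by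
    intro y hy
    exact (rL_ev (f := f) (z := P (-M) y) (by rw [P_im]; exact hy)).fderiv_eq
  have e2M : -M + 2 * M = M := by ring
  have hW0 : (fun y => rR f (P M (σ y)) - rL f (P (-M) y) -
      (2 * M) • (dd 1 (rL f) (P (-M) y) + m y • dd Complex.I (rL f) (P (-M) y))) =ᶠ[𝓝 d] 0 := by
    filter_upwards [hrul, hmm₀, hpos] with y h2 h3 h5
    have h6 := (h2 (2 * M) ⟨by linarith, le_rfl⟩).2.2
    rw [e2M] at h6
    simp only [hσ, h3, dd, hLRd y h5, Pi.zero_apply]
    rw [rL_eq_rR (f := f) (z := P (-M) y) (by rw [P_im]; exact h5), h6, hlin]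
    abel
  have hW0' : (fun y => fderiv ℝ (rR f) (P M (σ y)) - fderiv ℝ (rL f) (P (-M) y)) =ᶠ[𝓝 d] 0 := by
    filter_upwards [hrul, hmm₀, hpos] with y h2 h3 h5
    have h6 := (h2 (2 * M) ⟨by linarith, le_rfl⟩).2.1
    rw [e2M] at h6
    simp only [hσ, h3, hLRd y h5, Pi.zero_apply]
    rw [h6, sub_self]
  have hdI : d ∈ Icc y₁ d := ⟨hy1d.le, le_rfl⟩
  have hE3 := hWan.eqOn_zero_of_preconnected_of_eventuallyEq_zero isPreconnected_Icc hdI hW0
  have hE4 := hWan'.eqOn_zero_of_preconnected_of_eventuallyEq_zero isPreconnected_Icc hdI hW0'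
  -- Step 8
  have hy1I : y₁ ∈ Icc y₁ d := ⟨le_rfl, hy1d.le⟩
  have hh1 : (y₁ + σ y₁) / 2 < -(3 * ε) := by
    have h2 := hσmem y₁ hy1I
    have h3 : σ y₁ ≤ d := h2.2
    rcases hend with h5 | h5
    · linarith
    · have : σ y₁ = -M := h5
      linarith
  have hev1 : ∀ᶠ y in 𝓝[>] y₁, (y + σ y) / 2 < -(3 * ε) := by
    have h2 : ContinuousAt (fun y => (y + σ y) / 2) y₁ := by
      have := (hσan y₁ hy1I).continuousAt
      fun_prop
    exact (h2.eventually (gt_mem_nhds hh1)).filter_mono nhdsWithin_le_nhds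
  obtain ⟨y, hyh, ⟨hyN1, hyN2⟩, hyI1⟩ := (hev1.and (hne.and (Ioo_mem_nhdsGT hy1d))).exists
  have hy : y ∈ Icc y₁ d := ⟨hyI1.1.le, hyI1.2.le⟩
  set h : ℝ := y + M * m y with hh
  have hhσ : h = (y + σ y) / 2 := by simp only [hh, hσ]; ring
  have hyb := hyI y hy
  have hσb : σ y ∈ Icc (-M) d := hσmem y hy
  have hmy : |m y| ≤ 1 := by
    have h2 : m y = (σ y - y) / (2 * M) := by simp only [hσ]; field_simp; ring
    rw [h2, abs_div, abs_of_pos (show 0 < 2 * M by linarith), div_le_one (by linarith), abs_le]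
    constructor <;> linarith [hyb.1, hyb.2, hσb.1, hσb.2]
  -- heights on the line
  have hht : ∀ s ∈ Icc 0 (2 * M), y + s * m y ∈ Icc (-M) d := by
    intro s hs
    have e : y + s * m y = (1 - s / (2 * M)) * y + (s / (2 * M)) * σ y := by
      simp only [hσ]; field_simp; ring
    have a1 : 0 ≤ s / (2 * M) := div_nonneg hs.1 (by linarith)
    have a2 : s / (2 * M) ≤ 1 := (div_le_one (by linarith)).2 hs.2
    rw [e]
    constructor
    · nlinarith [hyb.1, hσb.1]
    · nlinarith [hyb.2, hσb.2]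
  have hnorm : ∀ x ∈ Icc (-M) M, ε < ‖P x (h + x * m y)‖ := by
    intro x hx
    by_contra hcon
    push Not at hcon
    have b1 := (P_norm_re x (h + x * m y)).trans hcon
    have b2 := (P_norm_im x (h + x * m y)).trans hcon
    have b3 : |x * m y| ≤ ε := by
      rw [abs_mul]
      calc |x| * |m y| ≤ ε * 1 := mul_le_mul b1 hmy (abs_nonneg _) hε.le
        _ = ε := mul_one _
    have b4 := (abs_le.1 b2).1
    have b5 := (abs_le.1 b3).2
    rw [hhσ] at b4
    linarith
  have hbound : ∀ x ∈ Icc (-M) M, |x| + |h + x * m y| < R := by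
    intro x hx
    have c1 : |x| ≤ M := abs_le.2 hx
    have c2 := hht (x + M) ⟨by linarith [hx.1], by linarith [hx.2]⟩
    have c3 : y + (x + M) * m y = h + x * m y := by simp only [hh]; ring
    rw [c3] at c2
    have c4 : |h + x * m y| ≤ M := abs_le.2 ⟨c2.1, by linarith [c2.2]⟩
    linarith
  have hv : (1 + (m y : ℂ) * Complex.I) ≠ 0 := by
    intro h
    have := congrArg Complex.re h
    simp at this
  have hpL : P (-M) y ∈ UL ε R := hmL y hyb
  have hpR : P M (σ y) ∈ UR ε R := hmR _ hσb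
  have hkL := hLi.ker_line hpL (c := c) (m := m y) hyN1 (hrel1 y hy)
  have hkR := hRi.ker_line hpR (c := c) (m := m y) hyN2 (hrel2 y hy)
  have hh0 : h < 0 := by rw [hhσ]; linarith
  have hLr := (hLi.ruling (T := M) hv (by
    intro t ht
    rw [P_add]
    have hx : -M + t ∈ Icc (-M) M := ⟨by linarith [ht.1], by linarith [ht.2]⟩
    have e : y + t * m y = h + (-M + t) * m y := by simp only [hh]; ring
    rw [e]
    apply memUL _ (hnorm _ hx) (hbound _ hx)
    rcases ht.2.eq_or_lt with h2 | h2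
    · right
      rw [h2, neg_add_cancel, zero_mul, add_zero]
      exact hh0.ne
    · left; linarith) hkL.1 hkL.2 M ⟨hM0.le, le_rfl⟩).2.2.2
  have hRr := (hRi.ruling (T := M) (v := -(1 + (m y : ℂ) * Complex.I)) (neg_ne_zero.2 hv) (by
    intro t ht
    rw [P_sub]
    have hx : M - t ∈ Icc (-M) M := ⟨by linarith [ht.2], by linarith [ht.1]⟩
    have e : σ y - t * m y = h + (M - t) * m y := by simp only [hh, hσ]; ring
    rw [e]
    apply memUR _ (hnorm _ hx) (hbound _ hx)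
    rcases ht.2.eq_or_lt with h2 | h2
    · right
      rw [h2, sub_self, zero_mul, add_zero]
      exact hh0.ne
    · left; linarith) (by rw [map_neg, hkR.1, neg_zero]) hkR.2 M ⟨hM0.le, le_rfl⟩).2.2.2
  rw [P_add, neg_add_cancel] at hLr
  rw [P_sub, sub_self] at hRr
  have e1 : y + M * m y = h := rfl
  have e2 : σ y - M * m y = h := by simp only [hh, hσ]; ring
  rw [e1] at hLr
  rw [e2] at hRr
  have hE3y := hE3 hy
  have hE4y := hE4 hy
  simp only [Pi.zero_apply] at hE3y hE4y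
  have hDeq : fderiv ℝ (rR f) (P M (σ y)) = fderiv ℝ (rL f) (P (-M) y) := sub_eq_zero.1 hE4y
  have hEq : rR f (P 0 h) = rL f (P 0 h) := by
    rw [hLr, hRr, hDeq, map_neg, hlin]
    have h2 : rR f (P M (σ y)) = rL f (P (-M) y) +
        (2 * M) • (dd 1 (rL f) (P (-M) y) + m y • dd Complex.I (rL f) (P (-M) y)) := by
      rw [sub_sub] at hE3y
      exact sub_eq_zero.1 hE3y
    rw [h2]
    simp only [dd]
    rw [two_mul, add_smul, smul_neg]
    abel
  -- conclusion
  have hx0 : (0 : ℝ) ∈ Icc (-M) M := ⟨by linarith, hM0.le⟩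
  have hb0 := hbound 0 hx0
  have hn1 := hnorm 0 hx0
  rw [zero_mul, add_zero] at hb0 hn1
  have hm1 : P 0 h ∈ UR ε R := memUR (Or.inr hh0.ne) hn1 hb0
  have hm2 : P 0 h ∈ UL ε R := memUL (Or.inr hh0.ne) hn1 hb0
  refine ⟨Complex.log (P 0 h), log_mem hε hm1, Complex.log (-(P 0 h)) + Real.pi * Complex.I, log_mem' hε hm2,
    ?_, ?_, hEq⟩
  · intro h2
    have h3 := congrArg Complex.im h2
    have h5 : (Complex.log (P 0 h)).im < 0 := by
      rw [Complex.log_im, Complex.arg_neg_iff, P_im]; exact hh0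
    have h6 : (Complex.log (-(P 0 h)) + Real.pi * Complex.I).im = (Complex.log (-(P 0 h))).im + Real.pi := by simp
    have h7 := Complex.neg_pi_lt_log_im (-(P 0 h))
    rw [h6] at h3
    linarith
  · have hP0 : P 0 h ≠ 0 := by
      intro h2
      rw [h2, norm_zero] at hn1
      linarith
    rw [Complex.exp_log hP0, Complex.exp_add, Complex.exp_log (neg_ne_zero.2 hP0), Complex.exp_pi_mul_I]
    ring

end core

end Pool.Agent.Y235.FE
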