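import Mathlib
import Pool.Agent.Y235.FE.F6

/-!
The sweeping lemma for a ruling in any direction.
-/

set_option autoImplicit false

open Set Filter Topology

namespace Pool.Agent.Y235.FE

open scoped RealInnerProductSpace

section sweep

variable {ε R : ℝ} {f : ℂ → E3}

/-- **Sweeping lemma**.  `g` is the local form of `f` near `exp s₀`; the ruling through `exp s₀` in the
direction `e` misses the hole. -/
theorem sweep {s₀ e : ℂ} (hε : 0 < ε) (he : ‖e‖ = 1) (h4 : 4 * ε ≤ ‖Complex.exp s₀‖)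
    (hR : 6 * ‖Complex.exp s₀‖ < R) (hmiss : ε < |(Complex.exp s₀ / e).im|)
    (hf : StrIso f (Str ε R (s₀.im - 2 * Real.pi) (s₀.im + 2 * Real.pi)))
    {g : ℂ → E3} (hg : AnalyticAt ℝ g (Complex.exp s₀)) (hgf : ∀ᶠ s in 𝓝 s₀, g (Complex.exp s) = f s)
    (h0 : BB g (Complex.exp s₀) e = 0) (h1 : BB g (Complex.exp s₀) ≠ 0) :
    ∃ w₁ ∈ Str ε R (s₀.im - 2 * Real.pi) (s₀.im + 2 * Real.pi),
      ∃ w₂ ∈ Str ε R (s₀.im - 2 * Real.pi) (s₀.im + 2 * Real.pi),
      w₁ ≠ w₂ ∧ Complex.exp w₁ = Complex.exp w₂ ∧ f w₁ = f w₂ := by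
  -- choose the sign of the direction
  obtain ⟨e', he', hpos, h0'⟩ : ∃ e' : ℂ, ‖e'‖ = 1 ∧ ε < (Complex.exp s₀ / e').im ∧ BB g (Complex.exp s₀) e' = 0 := by
    rcases le_total 0 (Complex.exp s₀ / e).im with h | h
    · rw [abs_of_nonneg h] at hmiss
      exact ⟨e, he, hmiss, h0⟩
    · rw [abs_of_nonpos h] at hmiss
      refine ⟨-e, by rw [norm_neg]; exact he, ?_, by rw [map_neg, h0, neg_zero]⟩
      rw [div_neg, Complex.neg_im]; exact hmiss
  have he0 : e' ≠ 0 := by
    intro h; rw [h, norm_zero] at he'; exact zero_ne_one he'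
  set z₀ : ℂ := Complex.exp s₀ / e' with hz₀
  have hz₀im : 0 < z₀.im := hε.trans hpos
  have hz₀0 : z₀ ≠ 0 := by intro h; rw [h] at hz₀im; simp at hz₀im
  have hz₀n : ‖z₀‖ = ‖Complex.exp s₀‖ := by rw [hz₀, norm_div, he', div_one]
  have hz₀P : z₀ = P z₀.re z₀.im := by rw [P, Complex.re_add_im]
  set β : ℂ := s₀ - Complex.log z₀ with hβ
  have hβexp : Complex.exp β = e' := by
    rw [hβ, Complex.exp_sub, Complex.exp_log hz₀0, hz₀]
    have := Complex.exp_ne_zero s₀
    field_simp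
  have hβre : β.re = 0 := by
    rw [hβ, Complex.sub_re, Complex.log_re, hz₀n, Complex.norm_exp, Real.log_exp, sub_self]
  have harg1 : 0 < Complex.arg z₀ := by
    rcases (Complex.arg_nonneg_iff.2 hz₀im.le).eq_or_lt with h | h
    · exfalso
      have := Complex.arg_eq_zero_iff.1 h.symm
      linarith [this.2]
    · exact h
  have harg2 : Complex.arg z₀ < Real.pi := Complex.arg_lt_pi_iff.2 (Or.inr hz₀im.ne')
  have hβim : β.im = s₀.im - Complex.arg z₀ := by rw [hβ, Complex.sub_im, Complex.log_im]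
  set f' : ℂ → E3 := fun w => f (w + β) with hf'
  have hmem : ∀ w ∈ Str ε R (-Real.pi) (2 * Real.pi),
      w + β ∈ Str ε R (s₀.im - 2 * Real.pi) (s₀.im + 2 * Real.pi) := by
    rintro w ⟨a1, a2, a3, a4⟩
    refine ⟨?_, ?_, ?_, ?_⟩
    · rw [Complex.add_re, hβre, add_zero]; exact a1
    · rw [Complex.add_re, hβre, add_zero]; exact a2
    · rw [Complex.add_im, hβim]; linarith
    · rw [Complex.add_im, hβim]; linarith
  have hadd : ∀ w : ℂ, HasFDerivAt (fun w : ℂ => w + β) (ContinuousLinearMap.id ℝ ℂ) w := fun w =>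
    (hasFDerivAt_id w).add_const β
  have hf'i : StrIso f' (Str ε R (-Real.pi) (2 * Real.pi)) := by
    refine ⟨fun w hw => ?_, fun w hw v => ?_⟩
    · have h2 : AnalyticAt ℝ (fun w : ℂ => w + β) w := analyticAt_id.add analyticAt_const
      exact AnalyticAt.comp (f := fun w : ℂ => w + β) (hf.an _ (hmem w hw)) h2
    · have h2 := ((hf.an _ (hmem w hw)).differentiableAt.hasFDerivAt.comp w (hadd w)).fderiv
      have h3 : fderiv ℝ f' w v = fderiv ℝ f (w + β) v := by
        change fderiv ℝ (f ∘ fun w => w + β) w v = _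
        rw [h2]; rfl
      rw [h3, hf.iso _ (hmem w hw), Complex.add_re, hβre, add_zero]
  -- the local form
  have hlocal : rR f' =ᶠ[𝓝 z₀] fun z => g (0 + e' * z) := by
    have hlog : ContinuousAt (fun z => Complex.log z + β) z₀ := by
      have : ContinuousAt Complex.log z₀ := continuousAt_clog (Or.inr hz₀im.ne')
      fun_prop
    have hlog0 : Complex.log z₀ + β = s₀ := by rw [hβ]; ring
    have h2 : ∀ᶠ z in 𝓝 z₀, g (Complex.exp (Complex.log z + β)) = f (Complex.log z + β) := by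
      have h3 : ∀ᶠ s in 𝓝 ((fun z => Complex.log z + β) z₀), g (Complex.exp s) = f s := by
        change ∀ᶠ s in 𝓝 (Complex.log z₀ + β), g (Complex.exp s) = f s
        rw [hlog0]; exact hgf
      exact hlog.eventually h3
    filter_upwards [h2, isOpen_ne.mem_nhds hz₀0] with z h3 h5
    change f (Complex.log z + β) = _
    rw [← h3, Complex.exp_add, hβexp, Complex.exp_log h5, zero_add, mul_comm]
  have hez : (0 : ℂ) + e' * z₀ = Complex.exp s₀ := by rw [hz₀, zero_add]; field_simp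
  have hBB : ∀ x y, BB (rR f') z₀ x y = BB g (Complex.exp s₀) (e' * x) (e' * y) := by
    intro x y
    rw [BB_congr hlocal, BB_affine (by rw [hez]; exact hg), hez]
  have h5 := sweep_core (ε := ε) (R := R) (f := f') (x₀ := z₀.re) (d := z₀.im) hε hpos
    (by rw [← hz₀P, hz₀n]; exact h4) (by rw [← hz₀P, hz₀n]; exact hR) hf'i (by
      rw [← hz₀P]
      refine ContinuousLinearMap.ext fun y => ?_
      rw [hBB, mul_one, h0']; rfl) (by
      rw [← hz₀P]
      intro h2
      apply h1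
      refine ContinuousLinearMap.ext fun x => ContinuousLinearMap.ext fun y => ?_
      have h3 := hBB (x / e') (y / e')
      rw [h2, mul_div_cancel₀ _ he0, mul_div_cancel₀ _ he0] at h3
      exact h3.symm)
  obtain ⟨w₁, hw₁, w₂, hw₂, hne, hexp, hff⟩ := h5
  refine ⟨w₁ + β, hmem _ hw₁, w₂ + β, hmem _ hw₂, fun h => hne (add_right_cancel h), ?_, hff⟩
  rw [Complex.exp_add, Complex.exp_add, hexp]

end sweep

end Pool.Agent.Y235.FE
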