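import Mathlib
import Pool.Agent.Y235.FE.F7

/-!
The developing map `w ↦ exp (-exp w)` and three charts.
-/

set_option autoImplicit false

open Set Filter Topology

namespace Pool.Agent.Y235.FE

open scoped RealInnerProductSpace

/-- the length factor `|(exp (-exp w))'|` -/
noncomputable def gg (w : ℂ) : ℝ := Real.exp (w - Complex.exp w).re

theorem gg_eq (w : ℂ) : gg w = ‖-Complex.exp w * Complex.exp (-Complex.exp w)‖ := by
  rw [gg, norm_mul, norm_neg, Complex.norm_exp, Complex.norm_exp, ← Real.exp_add, Complex.sub_re, Complex.neg_re]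
  rfl

theorem phi_der (w : ℂ) :
    HasDerivAt (fun w => Complex.exp (-Complex.exp w)) (-Complex.exp w * Complex.exp (-Complex.exp w)) w := by
  have h1 := (Complex.hasDerivAt_exp w).neg
  have h2 := (Complex.hasDerivAt_exp (-Complex.exp w)).comp w h1
  rw [mul_comm] at h2
  exact h2

theorem scale {ψ h : ℂ → ℂ} {U : Set ℂ} (hU : IsOpen U) (hψ : DifferentiableOn ℂ ψ U)
    (hh : ∀ z ∈ U, Complex.exp (-Complex.exp (ψ z)) = h z) {h' z : ℂ} (hz : z ∈ U) (hd : HasDerivAt h h' z) :
    gg (ψ z) * ‖deriv ψ z‖ = ‖h'‖ := by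
  have h1 : HasDerivAt ψ (deriv ψ z) z := (hψ.differentiableAt (hU.mem_nhds hz)).hasDerivAt
  have h2 := (phi_der (ψ z)).comp z h1
  have h3 : HasDerivAt ((fun w => Complex.exp (-Complex.exp w)) ∘ ψ) h' z := by
    apply hd.congr_of_eventuallyEq
    filter_upwards [hU.mem_nhds hz] with y hy using hh y hy
  rw [← h2.unique h3, gg_eq, ← norm_mul]

theorem comp_scale {f : ℂ → E3} {S U : Set ℂ} {ψ : ℂ → ℂ} {g : ℂ → ℝ} (hf : AnalyticOnNhd ℝ f S)
    (hg : ∀ w ∈ S, ∀ v : ℂ, ‖fderiv ℝ f w v‖ = g w * ‖v‖) (hU : IsOpen U) (hψ : DifferentiableOn ℂ ψ U)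
    (hm : ∀ z ∈ U, ψ z ∈ S) : AnalyticOnNhd ℝ (fun z => f (ψ z)) U ∧
      ∀ z ∈ U, ∀ v : ℂ, ‖fderiv ℝ (fun z => f (ψ z)) z v‖ = (g (ψ z) * ‖deriv ψ z‖) * ‖v‖ := by
  refine ⟨fun z hz => ?_, fun z hz v => ?_⟩
  · have h2 : AnalyticAt ℂ ψ z := hψ.analyticAt (hU.mem_nhds hz)
    exact (hf _ (hm z hz)).comp (h2.restrictScalars (𝕜 := ℝ))
  · have h2 : HasDerivAt ψ (deriv ψ z) z := (hψ.differentiableAt (hU.mem_nhds hz)).hasDerivAt
    have h3 : HasFDerivAt ψ ((ContinuousLinearMap.toSpanSingleton ℂ (deriv ψ z)).restrictScalars ℝ) z :=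
      h2.hasFDerivAt.restrictScalars ℝ
    have h4 := ((hf _ (hm z hz)).differentiableAt.hasFDerivAt.comp z h3).fderiv
    have h5 : fderiv ℝ (fun z => f (ψ z)) z v = fderiv ℝ f (ψ z) (v * deriv ψ z) := by
      change fderiv ℝ (f ∘ ψ) z v = _
      rw [h4]
      simp
    rw [h5, hg _ (hm z hz), norm_mul]
    ring

/-! ### size estimates -/

theorem log_bound {z : ℂ} {a b : ℝ} (ha : 0 < a) (h1 : a ≤ ‖z‖) (h2 : ‖z‖ ≤ b) :
    ‖Complex.log z‖ ≤ max (a⁻¹ - 1) (b - 1) + Real.pi := by
  have h0 : 0 < ‖z‖ := ha.trans_le h1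
  have h3 := Complex.norm_le_abs_re_add_abs_im (Complex.log z)
  have h4 : |(Complex.log z).im| ≤ Real.pi := by rw [Complex.log_im]; exact Complex.abs_arg_le_pi z
  have h5 : |(Complex.log z).re| ≤ max (a⁻¹ - 1) (b - 1) := by
    rw [Complex.log_re, abs_le]
    have h6 := Real.log_le_sub_one_of_pos h0
    have h7 := Real.one_sub_inv_le_log_of_pos h0
    have h8 : ‖z‖⁻¹ ≤ a⁻¹ := inv_anti₀ ha h1
    constructor
    · have := le_max_left (a⁻¹ - 1) (b - 1)
      linarith
    · exact le_max_of_le_right (by linarith)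
  linarith

theorem log_thousand : -7 < Real.log (1 / 1000) := by
  have h1 : Real.log (1 / 1000) = -Real.log 1000 := by rw [one_div, Real.log_inv]
  have h2 : Real.log 1000 < Real.log (2 ^ 10) := Real.log_lt_log (by norm_num) (by norm_num)
  have h3 : Real.log (2 ^ 10) = 10 * Real.log 2 := by rw [Real.log_pow]; norm_num
  have h4 := Real.log_two_lt_d9
  rw [h1]
  linarith

/-! ### the chart near the hole `0` -/

theorem chart1_mem {s : ℂ} (h1 : Real.log (1 / 1000) < s.re) (h2 : s.re < Real.log (3 / 4))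
    (h3 : |s.im| < 3 * Real.pi) : ‖Complex.log (-s)‖ < 100 ∧ -s ∈ Complex.slitPlane := by
  have hπ := Real.pi_lt_four
  have h4 := log_thousand
  have h5 := Real.log_le_sub_one_of_pos (show (0 : ℝ) < 3 / 4 by norm_num)
  have h6 : s.re < -(1 / 4) := by linarith
  constructor
  · have h7 : 1 / 4 ≤ ‖-s‖ := by
      have := Complex.abs_re_le_norm (-s)
      rw [Complex.neg_re, abs_of_pos (by linarith)] at this
      linarith
    have h8 : ‖-s‖ ≤ 20 := by
      have := Complex.norm_le_abs_re_add_abs_im (-s)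
      rw [Complex.neg_re, Complex.neg_im, abs_neg s.im, abs_of_pos (show 0 < -s.re by linarith)] at this
      linarith
    have h9 := log_bound (by norm_num) h7 h8
    have : max ((1 / 4 : ℝ)⁻¹ - 1) (20 - 1) = 19 := by norm_num
    rw [this] at h9
    linarith
  · rw [Complex.mem_slitPlane_iff]
    left
    rw [Complex.neg_re]; linarith

/-- `-log (1 - η) / η` -/
noncomputable def kap (η : ℂ) : ℂ := -Complex.log (1 - η) / η

theorem kap_bound {η : ℂ} (h0 : η ≠ 0) (h1 : ‖η‖ < 13 / 20) : ‖kap η - 1‖ ≤ 13 / 14 := by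
  have h2 : ‖-η‖ < 1 := by rw [norm_neg]; linarith
  have h3 := Complex.norm_log_one_add_sub_self_le h2
  rw [norm_neg] at h3
  have h4 : kap η - 1 = -(Complex.log (1 + -η) - -η) / η := by
    rw [kap, ← sub_eq_add_neg]; field_simp; ring
  have hη : 0 < ‖η‖ := norm_pos_iff.2 h0
  rw [h4, norm_div, norm_neg, div_le_iff₀ hη]
  refine h3.trans ?_
  have h5 : (1 - ‖η‖)⁻¹ ≤ 20 / 7 := by
    rw [inv_le_comm₀ (by linarith) (by norm_num)]
    norm_num; linarith
  have h6 : 0 ≤ (1 - ‖η‖)⁻¹ := inv_nonneg.2 (by linarith)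
  nlinarith [mul_nonneg hη.le hη.le]

theorem kap_re {η : ℂ} (h0 : η ≠ 0) (h1 : ‖η‖ < 13 / 20) : 0 < (kap η).re := by
  have h2 := kap_bound h0 h1
  have h3 := Complex.abs_re_le_norm (kap η - 1)
  rw [Complex.sub_re, Complex.one_re] at h3
  have h4 := (abs_le.1 (h3.trans h2)).1
  linarith

theorem kap_log {η : ℂ} (h0 : η ≠ 0) (h1 : ‖η‖ < 13 / 20) : ‖Complex.log (kap η)‖ < 20 := by
  have h2 := kap_bound h0 h1
  have h3 : 1 / 14 ≤ ‖kap η‖ := by
    have := norm_sub_norm_le (1 : ℂ) (1 - kap η)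
    rw [sub_sub_cancel, norm_one, norm_sub_rev] at this
    linarith
  have h4 : ‖kap η‖ ≤ 2 := by
    have := norm_add_le (kap η - 1) 1
    rw [sub_add_cancel, norm_one] at this
    linarith
  have h9 := log_bound (by norm_num) h3 h4
  have h10 : max ((1 / 14 : ℝ)⁻¹ - 1) (2 - 1) = 13 := by norm_num
  rw [h10] at h9
  linarith [Real.pi_lt_four]

/-- the chart near the hole `1` -/
noncomputable def psi2 (s : ℂ) : ℂ := s + Complex.log (kap (Complex.exp s))

theorem chart2_norm {s : ℂ} (h2 : s.re < Real.log (13 / 20)) : ‖Complex.exp s‖ < 13 / 20 := by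
  rw [Complex.norm_exp, ← Real.lt_log_iff_exp_lt (by norm_num)]; exact h2

theorem chart2_mem {s : ℂ} (h1 : Real.log (1 / 1000) < s.re) (h2 : s.re < Real.log (13 / 20))
    (h3 : |s.im| < 3 * Real.pi) : ‖psi2 s‖ < 100 := by
  have hπ := Real.pi_lt_four
  have h4 := log_thousand
  have h5 := Real.log_le_sub_one_of_pos (show (0 : ℝ) < 13 / 20 by norm_num)
  have h6 := kap_log (Complex.exp_ne_zero s) (chart2_norm h2)
  have h7 := norm_add_le s (Complex.log (kap (Complex.exp s)))
  have h8 := Complex.norm_le_abs_re_add_abs_im s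
  rw [abs_of_neg (show s.re < 0 by linarith)] at h8
  rw [psi2]
  linarith

theorem chart2_exp {s : ℂ} (h2 : s.re < Real.log (13 / 20)) :
    Complex.exp (psi2 s) = -Complex.log (1 - Complex.exp s) := by
  have h0 := Complex.exp_ne_zero s
  have h3 : kap (Complex.exp s) ≠ 0 := by
    intro h
    have := kap_re h0 (chart2_norm h2)
    rw [h] at this
    simp at this
  rw [psi2, Complex.exp_add, Complex.exp_log h3, kap]
  field_simp

theorem one_sub_ne {s : ℂ} (h2 : s.re < Real.log (13 / 20)) : 0 < (1 - Complex.exp s).re := by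
  have h3 := chart2_norm h2
  have h4 := Complex.re_le_norm (Complex.exp s)
  rw [Complex.sub_re, Complex.one_re]
  linarith

theorem chart2_phi {s : ℂ} (h2 : s.re < Real.log (13 / 20)) :
    Complex.exp (-Complex.exp (psi2 s)) = 1 - Complex.exp s := by
  rw [chart2_exp h2, neg_neg, Complex.exp_log]
  intro h
  have := one_sub_ne h2
  rw [h] at this
  simp at this

theorem chart2_diff {s : ℂ} (h2 : s.re < Real.log (13 / 20)) : DifferentiableAt ℂ psi2 s := by
  have h0 := Complex.exp_ne_zero s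
  have h3 : kap (Complex.exp s) ∈ Complex.slitPlane := Or.inl (kap_re h0 (chart2_norm h2))
  have h4 : (1 - Complex.exp s) ∈ Complex.slitPlane := Or.inl (one_sub_ne h2)
  have h5 : DifferentiableAt ℂ (fun s => kap (Complex.exp s)) s := by
    have h6 : DifferentiableAt ℂ (fun s => Complex.log (1 - Complex.exp s)) s :=
      (Complex.differentiableAt_exp.const_sub 1).clog h4
    exact h6.neg.div Complex.differentiableAt_exp h0
  exact differentiableAt_id.add (h5.clog h3)

/-- the chart at the hole `1` is the main chart near the real axis -/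
theorem chart2_main {s : ℂ} (h2 : s.re < Real.log (13 / 20)) (h3 : |s.im| < Real.pi / 2) :
    psi2 s = Complex.log (-Complex.log (1 - Complex.exp s)) := by
  rw [← chart2_exp h2, Complex.log_exp]
  · have h4 : |(Complex.log (kap (Complex.exp s))).im| < Real.pi / 2 := by
      rw [Complex.log_im, Complex.abs_arg_lt_pi_div_two_iff]
      left; exact kap_re (Complex.exp_ne_zero s) (chart2_norm h2)
    rw [psi2, Complex.add_im]
    have h5 := (abs_lt.1 h3).1
    have h6 := (abs_lt.1 h4).1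
    linarith
  · have h4 : |(Complex.log (kap (Complex.exp s))).im| < Real.pi / 2 := by
      rw [Complex.log_im, Complex.abs_arg_lt_pi_div_two_iff]
      left; exact kap_re (Complex.exp_ne_zero s) (chart2_norm h2)
    rw [psi2, Complex.add_im]
    have h5 := (abs_lt.1 h3).2
    have h6 := (abs_lt.1 h4).2
    linarith

/-! ### the main chart -/

/-- the main chart domain -/
def U0 : Set ℂ := {z | z ∈ Complex.slitPlane ∧ 1 / 1000 < ‖z‖ ∧ ‖z‖ < 1 ∧ 1 / 20 < ‖z - 1‖}

/-- the main chart -/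
noncomputable def psi0 (z : ℂ) : ℂ := Complex.log (-Complex.log z)

theorem isOpen_U0 : IsOpen U0 :=
  Complex.isOpen_slitPlane.inter ((isOpen_lt continuous_const continuous_norm).inter
    ((isOpen_lt continuous_norm continuous_const).inter
      (isOpen_lt continuous_const (continuous_norm.comp (continuous_id.sub continuous_const)))))

theorem neg_log_mem {z : ℂ} (h0 : z ≠ 0) (h1 : ‖z‖ < 1) : 0 < (-Complex.log z).re := by
  rw [Complex.neg_re, Complex.log_re]
  have := Real.log_neg (norm_pos_iff.2 h0) h1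
  linarith

theorem psi0_mem {z : ℂ} (hz : z ∈ U0) : ‖psi0 z‖ < 100 := by
  obtain ⟨h1, h2, h3, h4⟩ := hz
  have hπ := Real.pi_lt_four
  have h0 : z ≠ 0 := Complex.slitPlane_ne_zero h1
  have h5 : ‖-Complex.log z‖ ≤ 20 := by
    rw [norm_neg]
    have h6 := Complex.norm_le_abs_re_add_abs_im (Complex.log z)
    have h7 : |(Complex.log z).im| ≤ Real.pi := by rw [Complex.log_im]; exact Complex.abs_arg_le_pi z
    have h8 : |(Complex.log z).re| ≤ 7 := by
      rw [Complex.log_re, abs_le]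
      have h9 := Real.log_lt_log (by norm_num) h2
      have h10 := Real.log_neg (norm_pos_iff.2 h0) h3
      have h11 := log_thousand
      constructor <;> linarith
    linarith
  have h6 : 1 / 40 ≤ ‖-Complex.log z‖ := by
    rw [norm_neg]
    by_contra hcon
    push Not at hcon
    have h7 := Complex.norm_exp_sub_one_le (x := Complex.log z) (by linarith)
    rw [Complex.exp_log h0] at h7
    linarith
  have h9 := log_bound (by norm_num) h6 h5
  have h10 : max ((1 / 40 : ℝ)⁻¹ - 1) (20 - 1) = 39 := by norm_num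
  rw [h10] at h9
  rw [psi0]
  linarith

theorem psi0_phi {z : ℂ} (h1 : z ≠ 0) (h3 : ‖z‖ < 1) : Complex.exp (-Complex.exp (psi0 z)) = z := by
  have h4 := neg_log_mem h1 h3
  rw [psi0, Complex.exp_log, neg_neg, Complex.exp_log h1]
  intro h
  rw [h] at h4
  simp at h4

theorem psi0_diff {z : ℂ} (hz : z ∈ U0) : DifferentiableAt ℂ psi0 z := by
  obtain ⟨h1, h2, h3, h4⟩ := hz
  have h0 : z ≠ 0 := Complex.slitPlane_ne_zero h1
  have h5 : -Complex.log z ∈ Complex.slitPlane := Or.inl (neg_log_mem h0 h3)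
  exact (differentiableAt_id.clog h1).neg.clog h5

end Pool.Agent.Y235.FE
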