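import Mathlib
import Pool.Agent.Y235.FE.F8

/-!
The flat metric `|exp (w - exp w)|² |dw|²` on a disc has no analytic isometric embedding in `ℝ³`.
-/

set_option autoImplicit false

open Set Filter Topology Metric

namespace Pool.Agent.Y235.FE

open scoped RealInnerProductSpace

theorem Iso.exists_ker {ρ : ℂ → E3} {U : Set ℂ} (h : Iso ρ U) {z : ℂ} (hz : z ∈ U) :
    ∃ e : ℂ, ‖e‖ = 1 ∧ BB ρ z e = 0 := by
  have key : ∃ e : ℂ, e ≠ 0 ∧ BB ρ z e = 0 := by
    obtain ⟨n, hn⟩ := h.normal hz
    obtain ⟨l, e1⟩ := hn 1 1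
    obtain ⟨m, e2⟩ := hn 1 Complex.I
    obtain ⟨k, e3⟩ := hn Complex.I Complex.I
    have e2' : BB ρ z Complex.I 1 = m • n := by rw [h.symm hz, e2]
    have hxy : ∀ e : ℂ, BB ρ z e 1 = 0 → BB ρ z e Complex.I = 0 → BB ρ z e = 0 := by
      intro e h1 h2
      refine ContinuousLinearMap.ext fun y => ?_
      have hy : y = y.re • (1 : ℂ) + y.im • Complex.I := by
        rw [Complex.real_smul, Complex.real_smul]
        apply Complex.ext <;> simp
      rw [hy, map_add, map_smul, map_smul, h1, h2, smul_zero, smul_zero, add_zero]; rfl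
    rcases eq_or_ne n 0 with hn0 | hn0
    · refine ⟨1, one_ne_zero, hxy 1 ?_ ?_⟩
      · rw [e1, hn0, smul_zero]
      · rw [e2, hn0, smul_zero]
    · have hg := h.gauss hz 1 1 Complex.I Complex.I
      rw [e1, e2', e2, e3, real_inner_smul_left, real_inner_smul_right, real_inner_smul_left,
        real_inner_smul_right] at hg
      have h2 : ⟪n, n⟫ ≠ 0 := by rw [Ne, inner_self_eq_zero]; exact hn0
      have h3 : l * k = m * m := by
        have : (l * k - m * m) * ⟪n, n⟫ = 0 := by linarith
        have := (mul_eq_zero.1 this).resolve_right h2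
        linarith
      rcases eq_or_ne k 0 with hk | hk
      · have hm : m = 0 := by
          rw [hk, mul_zero] at h3
          exact mul_self_eq_zero.1 h3.symm
        refine ⟨Complex.I, Complex.I_ne_zero, hxy _ ?_ ?_⟩
        · rw [e2', hm, zero_smul]
        · rw [e3, hk, zero_smul]
      · refine ⟨k • (1 : ℂ) + (-m) • Complex.I, ?_, hxy _ ?_ ?_⟩
        · intro h4
          have := congrArg Complex.re h4
          simp at this
          exact hk this
        · rw [map_add, map_smul, map_smul]
          change k • BB ρ z 1 1 + (-m) • BB ρ z Complex.I 1 = 0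
          rw [e1, e2', smul_smul, smul_smul, ← add_smul]
          have : k * l + -m * m = 0 := by linarith
          rw [this, zero_smul]
        · rw [map_add, map_smul, map_smul]
          change k • BB ρ z 1 Complex.I + (-m) • BB ρ z Complex.I Complex.I = 0
          rw [e2, e3, smul_smul, smul_smul, ← add_smul]
          have : k * m + -m * k = 0 := by ring
          rw [this, zero_smul]
  obtain ⟨e, he, h0⟩ := key
  have hn : ‖e‖ ≠ 0 := norm_ne_zero_iff.2 he
  refine ⟨‖e‖⁻¹ • e, ?_, ?_⟩
  · rw [norm_smul, norm_inv, norm_norm, inv_mul_cancel₀ hn]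
  · refine ContinuousLinearMap.ext fun y => ?_
    have h1 : BB ρ z e y = 0 := by rw [h0]; rfl
    rw [map_smul]
    change ‖e‖⁻¹ • BB ρ z e y = 0
    rw [h1, smul_zero]

section main

variable {r : ℂ → E3}

/-- the main chart of the surface -/
noncomputable def r0 (r : ℂ → E3) (z : ℂ) : E3 := r (psi0 z)

variable (han : AnalyticOnNhd ℝ r (ball 0 100))
  (hiso : ∀ w ∈ ball (0 : ℂ) 100, ∀ v : ℂ, ‖fderiv ℝ r w v‖ = gg w * ‖v‖)

include han hiso

theorem iso_r0 : Iso (r0 r) U0 := by
  have h1 := comp_scale han hiso isOpen_U0 (ψ := psi0)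
    (fun z hz => (psi0_diff hz).differentiableWithinAt)
    (fun z hz => by rw [mem_ball_zero_iff]; exact psi0_mem hz)
  refine ⟨isOpen_U0, h1.1, fun z hz v => ?_⟩
  have h2 := h1.2 z hz v
  have h3 := scale isOpen_U0 (ψ := psi0) (h := fun z => z) (h' := 1)
    (fun z hz => (psi0_diff hz).differentiableWithinAt)
    (fun z hz => psi0_phi (Complex.slitPlane_ne_zero hz.1) hz.2.2.1) hz (hasDerivAt_id z)
  rw [h3, norm_one, one_mul] at h2
  exact h2

theorem striso1 {θ : ℝ} (hθ : |θ| ≤ Real.pi) :
    StrIso (fun s => r (Complex.log (-s))) (Str (1 / 1000) (3 / 4) (θ - 2 * Real.pi) (θ + 2 * Real.pi)) := by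
  have hθ' := abs_le.1 hθ
  set T : Set ℂ := Str (1 / 1000) (3 / 4) (θ - 2 * Real.pi) (θ + 2 * Real.pi) with hT
  have hTo : IsOpen T :=
    (isOpen_lt continuous_const Complex.continuous_re).inter ((isOpen_lt Complex.continuous_re continuous_const).inter
      ((isOpen_lt continuous_const Complex.continuous_im).inter (isOpen_lt Complex.continuous_im continuous_const)))
  have hmem : ∀ s ∈ T, ‖Complex.log (-s)‖ < 100 ∧ -s ∈ Complex.slitPlane := by
    rintro s ⟨h1, h2, h3, h4⟩
    apply chart1_mem h1 h2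
    rw [abs_lt]; constructor <;> linarith
  have hd : DifferentiableOn ℂ (fun s => Complex.log (-s)) T := fun s hs =>
    (differentiableAt_id.neg.clog (hmem s hs).2).differentiableWithinAt
  have h1 := comp_scale han hiso hTo hd (fun z hz => by rw [mem_ball_zero_iff]; exact (hmem z hz).1)
  refine ⟨h1.1, fun s hs v => ?_⟩
  have h2 := h1.2 s hs v
  have h3 := scale hTo (h := fun s => Complex.exp s) (h' := Complex.exp s) hd
    (fun s hs => by
      rw [Complex.exp_log (Complex.slitPlane_ne_zero (hmem s hs).2), neg_neg]) hs (Complex.hasDerivAt_exp s)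
  rw [h3, Complex.norm_exp] at h2
  exact h2

theorem striso2 {θ : ℝ} (hθ : |θ| ≤ Real.pi) :
    StrIso (fun s => r (psi2 s)) (Str (1 / 1000) (13 / 20) (θ - 2 * Real.pi) (θ + 2 * Real.pi)) := by
  have hθ' := abs_le.1 hθ
  set T : Set ℂ := Str (1 / 1000) (13 / 20) (θ - 2 * Real.pi) (θ + 2 * Real.pi) with hT
  have hTo : IsOpen T :=
    (isOpen_lt continuous_const Complex.continuous_re).inter ((isOpen_lt Complex.continuous_re continuous_const).inter
      ((isOpen_lt continuous_const Complex.continuous_im).inter (isOpen_lt Complex.continuous_im continuous_const)))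
  have hd : DifferentiableOn ℂ psi2 T := fun s hs => (chart2_diff hs.2.1).differentiableWithinAt
  have h1 := comp_scale han hiso hTo hd (fun z hz => by
    rw [mem_ball_zero_iff]
    apply chart2_mem hz.1 hz.2.1
    have h3 := hz.2.2.1
    have h4 := hz.2.2.2
    rw [abs_lt]; constructor <;> linarith)
  refine ⟨h1.1, fun s hs v => ?_⟩
  have h2 := h1.2 s hs v
  have h3 := scale hTo (h := fun s => 1 - Complex.exp s) (h' := -Complex.exp s) hd
    (fun s hs => chart2_phi hs.2.1) hs ((Complex.hasDerivAt_exp s).const_sub 1)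
  rw [h3, norm_neg, Complex.norm_exp] at h2
  exact h2

/-- there is a non-planar point -/
theorem exists_nonplanar (hinj : InjOn r (ball 0 100)) :
    ∃ p ∈ ball (P (9 / 10) (1 / 100)) (1 / 1000), BB (r0 r) p ≠ 0 := by
  have h0 := iso_r0 han hiso
  by_contra hcon
  push Not at hcon
  set p0 : ℂ := P (9 / 10) (1 / 100) with hp0
  set V : Set ℂ := ball p0 (1 / 1000) with hV
  have hVU : V ⊆ U0 := by
    intro p hp
    rw [hV, mem_ball, dist_eq_norm] at hp
    have h1 := Complex.abs_re_le_norm (p - p0)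
    have h2 := Complex.abs_im_le_norm (p - p0)
    rw [Complex.sub_re, hp0, P_re] at h1
    rw [Complex.sub_im, hp0, P_im] at h2
    have h1' := abs_lt.1 (h1.trans_lt hp)
    have h2' := abs_lt.1 (h2.trans_lt hp)
    have h3 := Complex.abs_re_le_norm p
    have h4 := Complex.norm_le_abs_re_add_abs_im p
    have h5 := Complex.abs_re_le_norm (p - 1)
    rw [abs_of_pos (show 0 < p.re by linarith [h1'.1])] at h3 h4
    rw [abs_of_pos (show 0 < p.im by linarith [h2'.1])] at h4
    rw [Complex.sub_re, Complex.one_re, abs_of_neg (by linarith [h1'.2])] at h5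
    refine ⟨?_, ?_, ?_, ?_⟩
    · rw [Complex.mem_slitPlane_iff]; left; linarith [h1'.1]
    · linarith [h1'.1]
    · linarith [h1'.2, h2'.2]
    · linarith [h1'.2]
  have hp0V : p0 ∈ V := mem_ball_self (by norm_num)
  have hp0U := hVU hp0V
  have hVo : IsOpen V := isOpen_ball
  have hVc : IsPreconnected V := (convex_ball _ _).isPreconnected
  set L := fderiv ℝ (r0 r) p0 with hL
  have hDc : ∀ z ∈ V, fderiv ℝ (r0 r) z = L := by
    intro z hz
    exact hVo.is_const_of_fderiv_eq_zero hVc (fun z hz => (h0.d1 (hVU hz)).differentiableAt.differentiableWithinAt)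
      (fun z hz => hcon z hz) hz hp0V
  have hlin : ∀ z ∈ V, r0 r z = r0 r p0 + L (z - p0) := by
    intro z hz
    have h1 := hVo.is_const_of_fderiv_eq_zero (f := fun z => r0 r z - L z) hVc
      (fun z hz => ((h0.an z (hVU hz)).differentiableAt.sub L.differentiableAt).differentiableWithinAt)
      (fun z hz => by
        have h2 := (((h0.an z (hVU hz)).differentiableAt.hasFDerivAt).sub L.hasFDerivAt).fderiv
        have h3 : fderiv ℝ (fun z => r0 r z - L z) z = fderiv ℝ (r0 r) z - L := h2
        rw [h3, hDc z hz, sub_self]; rfl) hz hp0V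
    have h2 : r0 r z - L z = r0 r p0 - L p0 := h1
    rw [map_sub]
    rw [sub_eq_iff_eq_add] at h2
    rw [h2]; abel
  have hp00 : p0 ≠ 0 := Complex.slitPlane_ne_zero hp0U.1
  set w0 : ℂ := psi0 p0 with hw0
  have hphi : Continuous fun w => Complex.exp (-Complex.exp w) := by fun_prop
  have hphi0 : Complex.exp (-Complex.exp w0) = p0 := psi0_phi hp00 hp0U.2.2.1
  have hexp0 : -Complex.exp w0 = Complex.log p0 := by
    rw [hw0, psi0, Complex.exp_log, neg_neg]
    intro h
    have := neg_log_mem hp00 hp0U.2.2.1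
    rw [h] at this; simp at this
  have hev : r =ᶠ[𝓝 w0] fun w => r0 r p0 + L (Complex.exp (-Complex.exp w) - p0) := by
    have e1 : ∀ᶠ w in 𝓝 w0, Complex.exp (-Complex.exp w) ∈ V := by
      apply hphi.continuousAt.eventually_mem
      rw [hphi0]; exact hVo.mem_nhds hp0V
    have e2 : ∀ᶠ w in 𝓝 w0, |(-Complex.exp w).im| < Real.pi := by
      have hc : ContinuousAt (fun w => |(-Complex.exp w).im|) w0 := by fun_prop
      apply hc.eventually (gt_mem_nhds _)
      change |(-Complex.exp w0).im| < Real.pi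
      rw [hexp0, Complex.log_im]
      exact abs_lt.2 ⟨Complex.neg_pi_lt_arg _, lt_of_le_of_ne (Complex.arg_le_pi _)
        (Complex.mem_slitPlane_iff_arg.1 hp0U.1).1⟩
    have e3 : ∀ᶠ w in 𝓝 w0, |w.im| < Real.pi := by
      have hc : ContinuousAt (fun w : ℂ => |w.im|) w0 := by fun_prop
      apply hc.eventually (gt_mem_nhds _)
      change |w0.im| < Real.pi
      rw [hw0, psi0, Complex.log_im]
      have : |Complex.arg (-Complex.log p0)| < Real.pi / 2 :=
        Complex.abs_arg_lt_pi_div_two_iff.2 (Or.inl (neg_log_mem hp00 hp0U.2.2.1))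
      linarith [Real.pi_pos]
    filter_upwards [e1, e2, e3] with w h1 h2 h3
    rw [← hlin _ h1, r0]
    have h2' := abs_lt.1 h2
    have h3' := abs_lt.1 h3
    have : psi0 (Complex.exp (-Complex.exp w)) = w := by
      rw [psi0, Complex.log_exp h2'.1 h2'.2.le, neg_neg, Complex.log_exp h3'.1 h3'.2.le]
    rw [this]
  have hgan : AnalyticOnNhd ℝ (fun w => r0 r p0 + L (Complex.exp (-Complex.exp w) - p0)) (ball 0 100) := by
    intro w _
    have h1 : AnalyticAt ℂ (fun w => Complex.exp (-Complex.exp w) - p0) w := by fun_prop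
    have h2 : AnalyticAt ℝ (fun w => Complex.exp (-Complex.exp w) - p0) w := h1.restrictScalars
    exact analyticAt_const.add ((L.analyticAt _).comp h2)
  have hw0m : w0 ∈ ball (0 : ℂ) 100 := by rw [mem_ball_zero_iff]; exact psi0_mem hp0U
  have hall := han.eqOn_of_preconnected_of_eventuallyEq hgan (convex_ball _ _).isPreconnected hw0m hev
  have hm0 : (0 : ℂ) ∈ ball (0 : ℂ) 100 := mem_ball_self (by norm_num)
  have hm1 : 2 * Real.pi * Complex.I ∈ ball (0 : ℂ) 100 := by
    rw [mem_ball_zero_iff]
    have : ‖2 * (Real.pi : ℂ) * Complex.I‖ = 2 * Real.pi := by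
      rw [norm_mul, norm_mul, Complex.norm_I, Complex.norm_real, Real.norm_eq_abs, abs_of_pos Real.pi_pos]
      simp
    rw [this]
    linarith [Real.pi_lt_four]
  have h1 := hall hm0
  have h2 := hall hm1
  simp only [Complex.exp_zero, Complex.exp_two_pi_mul_I] at h1 h2
  have h3 := hinj hm0 hm1 (h1.trans h2.symm)
  have h4 := congrArg Complex.im h3
  simp at h4

end main

end Pool.Agent.Y235.FE
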