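import Mathlib
import Pool.Agent.Y235.FE.F9

/-!
The flat metric `|exp (w - exp w)|² |dw|²` on a disc has no analytic isometric embedding in `ℝ³`: conclusion.
-/

set_option autoImplicit false

open Set Filter Topology Metric

namespace Pool.Agent.Y235.FE

open scoped RealInnerProductSpace

/-- a line through a point near `9/10 + i/100` that passes close to `1` has slope about `-1/10` -/
theorem slope_bound {px py a b : ℝ} (hx1 : 899 / 1000 < px) (hx2 : px < 901 / 1000) (hy1 : 9 / 1000 < py)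
    (hy2 : py < 11 / 1000) (hab : a ^ 2 + b ^ 2 = 1) (hc : |-py * a - (1 - px) * b| ≤ 1 / 1000) :
    ∃ k : ℝ, b = k * a ∧ 99 / 100 < |a| ∧ -(1215 / 10000) < k ∧ k < -(785 / 10000) := by
  obtain ⟨c1, c2⟩ := abs_le.1 hc
  obtain ⟨D, hD⟩ : ∃ D, D = 1 - px := ⟨_, rfl⟩
  rw [← hD] at hc c1 c2
  have hD1 : 99 / 1000 < D := by linarith
  have hD2 : D < 101 / 1000 := by linarith
  have ha1 : |a| ≤ 1 := by
    rw [abs_le_one_iff_mul_self_le_one]
    nlinarith [sq_nonneg b]
  obtain ⟨a1, a2⟩ := abs_le.1 ha1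
  have hpa1 : py * a ≤ 11 / 1000 := by nlinarith
  have hpa2 : -(11 / 1000) ≤ py * a := by nlinarith
  have d1 : D * b ≤ 12 / 1000 := by linarith
  have d2 : -(12 / 1000) ≤ D * b := by linarith
  have d3 : D ^ 2 * b ^ 2 ≤ 144 / 1000000 := by
    have : D ^ 2 * b ^ 2 = (D * b) * (D * b) := by ring
    rw [this]; nlinarith
  have d4 : 9801 / 1000000 < D ^ 2 := by nlinarith
  have hb2 : b ^ 2 < 15 / 1000 := by
    by_contra hcon
    push Not at hcon
    have d5 : 9801 / 1000000 * b ^ 2 ≤ D ^ 2 * b ^ 2 := mul_le_mul_of_nonneg_right d4.le (sq_nonneg b)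
    linarith
  have ha2 : (99 / 100) ^ 2 < a ^ 2 := by
    have : a ^ 2 = 1 - b ^ 2 := by linarith
    rw [this]; norm_num; linarith
  have ha0 : a ≠ 0 := by rintro h; rw [h] at ha2; norm_num at ha2
  have haabs : 99 / 100 < |a| := by
    have := sq_lt_sq.1 ha2
    rwa [abs_of_pos (by norm_num : (0 : ℝ) < 99 / 100)] at this
  obtain ⟨k, hk'⟩ : ∃ k, k = b / a := ⟨_, rfl⟩
  have hbk : b = k * a := by rw [hk']; field_simp
  have hck : |py + D * k| ≤ 102 / 100000 := by
    have h3 : |(py + D * k) * a| ≤ 1 / 1000 := by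
      have : (py + D * k) * a = -(-py * a - D * b) := by rw [hbk]; ring
      rw [this, abs_neg]; exact hc
    rw [abs_mul] at h3
    have h5 : |py + D * k| * (99 / 100) ≤ |py + D * k| * |a| :=
      mul_le_mul_of_nonneg_left haabs.le (abs_nonneg _)
    linarith
  obtain ⟨k1, k2⟩ := abs_le.1 hck
  refine ⟨k, hbk, haabs, ?_, ?_⟩
  · by_contra hcon
    push Not at hcon
    have h5 : D * k ≤ D * -(1215 / 10000) := mul_le_mul_of_nonneg_left hcon (by linarith)
    linarith
  · by_contra hcon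
    push Not at hcon
    have h5 : D * -(785 / 10000) ≤ D * k := mul_le_mul_of_nonneg_left hcon (by linarith)
    linarith

section main

variable {r : ℂ → E3}

/-- a ruling through `p` that misses the hole `1` leads to a double point -/
theorem case_one (han : AnalyticOnNhd ℝ r (ball 0 100))
    (hiso : ∀ w ∈ ball (0 : ℂ) 100, ∀ v : ℂ, ‖fderiv ℝ r w v‖ = gg w * ‖v‖) (hinj : InjOn r (ball 0 100))
    {p e : ℂ} (hp : p ∈ U0) (h1 : 4 * (1 / 1000) ≤ ‖1 - p‖) (h2 : 6 * ‖1 - p‖ < 13 / 20)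
    (h3 : 0 < (1 - p).re) (he : ‖e‖ = 1) (h4 : 1 / 1000 < |((1 - p) / e).im|)
    (hk : BB (r0 r) p e = 0) (hB : BB (r0 r) p ≠ 0) : False := by
  have h0 := iso_r0 han hiso
  set η : ℂ := 1 - p with hη
  have hη0 : η ≠ 0 := by intro h; rw [h] at h3; simp at h3
  set s₀ : ℂ := Complex.log η with hs₀
  have hexp : Complex.exp s₀ = η := Complex.exp_log hη0
  have hs₀im : |s₀.im| ≤ Real.pi := by rw [hs₀, Complex.log_im]; exact Complex.abs_arg_le_pi η
  set g : ℂ → E3 := fun z => r0 r (1 + (-1) * z) with hg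
  have hpe : (1 : ℂ) + (-1) * η = p := by rw [hη]; ring
  have hgan : AnalyticAt ℝ (r0 r) (1 + (-1) * η) := by rw [hpe]; exact h0.an p hp
  have hgan' : AnalyticAt ℝ g η := by
    have h5 : AnalyticAt ℂ (fun z : ℂ => 1 + (-1) * z) η := by fun_prop
    exact AnalyticAt.comp (f := fun z : ℂ => 1 + (-1) * z) hgan (h5.restrictScalars (𝕜 := ℝ))
  have hBB : ∀ x y, BB g η x y = BB (r0 r) p ((-1) * x) ((-1) * y) := by
    intro x y
    rw [hg, BB_affine hgan, hpe]
  have hre : s₀.re < Real.log (13 / 20) := by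
    rw [hs₀, Complex.log_re]
    apply Real.log_lt_log (norm_pos_iff.2 hη0)
    linarith [norm_nonneg η]
  have him : |s₀.im| < Real.pi / 2 := by
    rw [hs₀, Complex.log_im]
    exact Complex.abs_arg_lt_pi_div_two_iff.2 (Or.inl h3)
  have hgf : ∀ᶠ s in 𝓝 s₀, g (Complex.exp s) = r (psi2 s) := by
    have e1 : ∀ᶠ s in 𝓝 s₀, s.re < Real.log (13 / 20) :=
      (isOpen_lt Complex.continuous_re continuous_const).mem_nhds hre
    have e2 : ∀ᶠ s in 𝓝 s₀, |s.im| < Real.pi / 2 :=
      (isOpen_lt (continuous_abs.comp Complex.continuous_im) continuous_const).mem_nhds him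
    filter_upwards [e1, e2] with s b1 b2
    rw [hg, chart2_main b1 b2]
    change r (psi0 (1 + (-1) * Complex.exp s)) = _
    rw [psi0]
    congr 4
    ring
  obtain ⟨w₁, hw₁, w₂, hw₂, hne, hee, hff⟩ := sweep (ε := 1 / 1000) (R := 13 / 20) (f := fun s => r (psi2 s))
    (s₀ := s₀) (e := e) (by norm_num) he (by rw [hexp]; exact h1) (by rw [hexp]; exact h2)
    (by rw [hexp]; exact h4) (striso2 han hiso hs₀im) (g := g) (by rw [hexp]; exact hgan') hgf
    (by
      rw [hexp]
      refine ContinuousLinearMap.ext fun y => ?_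
      rw [hBB]
      have : (-1 : ℂ) * e = -e := by ring
      rw [this, map_neg, hk]; simp)
    (by
      rw [hexp]
      intro h5
      apply hB
      refine ContinuousLinearMap.ext fun x => ContinuousLinearMap.ext fun y => ?_
      have h6 := hBB (-x) (-y)
      rw [h5] at h6
      have e1 : (-1 : ℂ) * -x = x := by ring
      have e2 : (-1 : ℂ) * -y = y := by ring
      rw [e1, e2] at h6
      exact h6.symm)
  have hπ := abs_le.1 hs₀im
  have hm : ∀ w ∈ Str (1 / 1000) (13 / 20) (s₀.im - 2 * Real.pi) (s₀.im + 2 * Real.pi), psi2 w ∈ ball (0 : ℂ) 100 := by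
    rintro w ⟨a1, a2, a3, a4⟩
    rw [mem_ball_zero_iff]
    apply chart2_mem a1 a2
    rw [abs_lt]; constructor <;> linarith
  have h5 := hinj (hm w₁ hw₁) (hm w₂ hw₂) hff
  rw [psi2, psi2, hee] at h5
  exact hne (add_right_cancel h5)

/-- a ruling through `p` that misses the hole `0` leads to a double point -/
theorem case_zero (han : AnalyticOnNhd ℝ r (ball 0 100))
    (hiso : ∀ w ∈ ball (0 : ℂ) 100, ∀ v : ℂ, ‖fderiv ℝ r w v‖ = gg w * ‖v‖) (hinj : InjOn r (ball 0 100))
    {p e : ℂ} (hp : p ∈ U0) (h1 : 4 * (1 / 1000) ≤ ‖p‖) (h2 : 6 * ‖p‖ < 3 / 4)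
    (he : ‖e‖ = 1) (h4 : 1 / 1000 < |(p / e).im|)
    (hk : BB (r0 r) p e = 0) (hB : BB (r0 r) p ≠ 0) : False := by
  have h0 := iso_r0 han hiso
  have hp0 : p ≠ 0 := Complex.slitPlane_ne_zero hp.1
  set s₀ : ℂ := Complex.log p with hs₀
  have hexp : Complex.exp s₀ = p := Complex.exp_log hp0
  have hs₀im : |s₀.im| ≤ Real.pi := by rw [hs₀, Complex.log_im]; exact Complex.abs_arg_le_pi p
  have him : |s₀.im| < Real.pi := by
    rw [hs₀, Complex.log_im]
    exact abs_lt.2 ⟨Complex.neg_pi_lt_arg _, lt_of_le_of_ne (Complex.arg_le_pi _)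
        (Complex.mem_slitPlane_iff_arg.1 hp.1).1⟩
  have hgf : ∀ᶠ s in 𝓝 s₀, r0 r (Complex.exp s) = r (Complex.log (-s)) := by
    have e2 : ∀ᶠ s in 𝓝 s₀, |s.im| < Real.pi :=
      (isOpen_lt (continuous_abs.comp Complex.continuous_im) continuous_const).mem_nhds him
    filter_upwards [e2] with s b2
    have b3 := abs_lt.1 b2
    rw [r0, psi0, Complex.log_exp b3.1 b3.2.le]
  obtain ⟨w₁, hw₁, w₂, hw₂, hne, hee, hff⟩ := sweep (ε := 1 / 1000) (R := 3 / 4)
    (f := fun s => r (Complex.log (-s)))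
    (s₀ := s₀) (e := e) (by norm_num) he (by rw [hexp]; exact h1) (by rw [hexp]; exact h2)
    (by rw [hexp]; exact h4) (striso1 han hiso hs₀im) (g := r0 r) (by rw [hexp]; exact h0.an p hp) hgf
    (by rw [hexp]; exact hk) (by rw [hexp]; exact hB)
  have hπ := abs_le.1 hs₀im
  have hm : ∀ w ∈ Str (1 / 1000) (3 / 4) (s₀.im - 2 * Real.pi) (s₀.im + 2 * Real.pi),
      ‖Complex.log (-w)‖ < 100 ∧ -w ∈ Complex.slitPlane := by
    rintro w ⟨a1, a2, a3, a4⟩
    apply chart1_mem a1 a2
    rw [abs_lt]; constructor <;> linarith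
  have h5 := hinj (mem_ball_zero_iff.2 (hm w₁ hw₁).1) (mem_ball_zero_iff.2 (hm w₂ hw₂).1) hff
  have h6 := congrArg Complex.exp h5
  rw [Complex.exp_log (Complex.slitPlane_ne_zero (hm w₁ hw₁).2),
    Complex.exp_log (Complex.slitPlane_ne_zero (hm w₂ hw₂).2)] at h6
  exact hne (neg_injective h6)

set_option maxHeartbeats 2000000 in
/-- **Main theorem**, radius 100 -/
theorem no_embedding (han : AnalyticOnNhd ℝ r (ball 0 100))
    (hiso : ∀ w ∈ ball (0 : ℂ) 100, ∀ v : ℂ, ‖fderiv ℝ r w v‖ = gg w * ‖v‖) : ¬ InjOn r (ball 0 100) := by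
  intro hinj
  have h0 := iso_r0 han hiso
  obtain ⟨p, hp, hB⟩ := exists_nonplanar han hiso hinj
  rw [mem_ball, dist_eq_norm] at hp
  have h1 := Complex.abs_re_le_norm (p - P (9 / 10) (1 / 100))
  have h2 := Complex.abs_im_le_norm (p - P (9 / 10) (1 / 100))
  rw [Complex.sub_re, P_re] at h1
  rw [Complex.sub_im, P_im] at h2
  obtain ⟨x1, x2⟩ := abs_lt.1 (h1.trans_lt hp)
  obtain ⟨y1, y2⟩ := abs_lt.1 (h2.trans_lt hp)
  have hx1 : 899 / 1000 < p.re := by linarith
  have hx2 : p.re < 901 / 1000 := by linarith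
  have hy1 : 9 / 1000 < p.im := by linarith
  have hy2 : p.im < 11 / 1000 := by linarith
  have hpP : p = P p.re p.im := by rw [P, Complex.re_add_im]
  -- membership in the chart
  have hmem : ∀ x y : ℝ, 0 ≤ x → x < 901 / 1000 → 9 / 1000 < y → x + y < 1 → P x y ∈ U0 := by
    intro x y a1 a2 a3 a4
    have b1 := P_norm_im x y
    rw [abs_of_pos (show 0 < y by linarith)] at b1
    have b2 := P_norm_le x y
    rw [abs_of_pos (show 0 < y by linarith), abs_of_nonneg a1] at b2
    have b3 := Complex.abs_re_le_norm (P x y - 1)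
    rw [Complex.sub_re, P_re, Complex.one_re, abs_of_neg (by linarith)] at b3
    refine ⟨?_, by linarith, by linarith, by linarith⟩
    rw [Complex.mem_slitPlane_iff, P_im]
    right; linarith
  have hpU : p ∈ U0 := by rw [hpP]; exact hmem _ _ (by linarith) hx2 hy1 (by linarith)
  obtain ⟨e, he, hk⟩ := h0.exists_ker hpU
  have hre : (1 - p).re = 1 - p.re := by simp
  have him : (1 - p).im = -p.im := by simp
  have hn1 : 99 / 1000 < ‖1 - p‖ := by
    have := Complex.abs_re_le_norm (1 - p)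
    rw [hre, abs_of_pos (by linarith)] at this
    linarith
  have hn2 : 6 * ‖1 - p‖ < 13 / 20 := by
    have h3 : ‖1 - p‖ ^ 2 = (1 - p.re) ^ 2 + p.im ^ 2 := by
      rw [Complex.sq_norm, Complex.normSq_apply, hre, him]; ring
    have h4 : ‖1 - p‖ ^ 2 < (13 / 120) ^ 2 := by rw [h3]; nlinarith
    have h5 := lt_of_pow_lt_pow_left₀ 2 (by norm_num) h4
    linarith
  by_cases hc : 1 / 1000 < |((1 - p) / e).im|
  · exact case_one han hiso hinj hpU (by linarith) hn2 (by rw [hre]; linarith) he hc hk hB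
  push Not at hc
  set a : ℝ := e.re with ha
  set b : ℝ := e.im with hb
  have hab : a ^ 2 + b ^ 2 = 1 := by
    have : ‖e‖ ^ 2 = a ^ 2 + b ^ 2 := by rw [Complex.sq_norm, Complex.normSq_apply]; ring
    rw [← this, he]; norm_num
  have hdiv : ∀ z : ℂ, (z / e).im = z.im * a - z.re * b := by
    intro z
    have h3 : Complex.normSq e = 1 := by rw [← Complex.sq_norm, he]; norm_num
    rw [Complex.div_im, h3]; ring
  rw [hdiv, hre, him] at hc
  obtain ⟨k, hbk, haabs, hk1, hk2⟩ := slope_bound hx1 hx2 hy1 hy2 hab hc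
  have ha0 : a ≠ 0 := by rintro h; rw [h, abs_zero] at haabs; linarith
  set y' : ℝ := p.im - p.re * k with hy'
  have hy'1 : 79 / 1000 < y' := by nlinarith
  have hy'2 : y' < 122 / 1000 := by nlinarith
  -- the ruling reaches the imaginary axis
  set v : ℂ := -(1 + (k : ℂ) * Complex.I) with hv
  have hev : e = (-a) • v := by
    apply Complex.ext
    · simp [hv]; rfl
    · simp only [hv, Complex.real_smul]
      simp
      rw [← hb, hbk]; ring
  have hv0 : v ≠ 0 := by
    intro h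
    have := congrArg Complex.re h
    simp [hv] at this
  have hBv : BB (r0 r) p v = 0 := by
    have h3 : v = (-a)⁻¹ • e := by
      rw [hev, smul_smul, inv_mul_cancel₀ (neg_ne_zero.2 ha0), one_smul]
    refine ContinuousLinearMap.ext fun y => ?_
    have h4 : BB (r0 r) p e y = 0 := by rw [hk]; rfl
    rw [h3, map_smul]
    change (-a)⁻¹ • BB (r0 r) p e y = 0
    rw [h4, smul_zero]
  have hpath : ∀ t ∈ Icc 0 p.re, p + t • v ∈ U0 := by
    intro t ht
    have e1 : p + t • v = P (p.re - t) (p.im - t * k) := by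
      conv_lhs => rw [hpP]
      rw [hv, P_sub]
    rw [e1]
    apply hmem
    · linarith [ht.2]
    · linarith [ht.1]
    · nlinarith [ht.1]
    · nlinarith [ht.1, ht.2]
  have hrul := h0.ruling hv0 hpath hBv hB p.re ⟨by linarith, le_rfl⟩
  have hp' : p + p.re • v = P 0 y' := by
    conv_lhs => rw [hpP]
    simp only [P_re]
    rw [hv, P_sub, sub_self]
  rw [hp'] at hrul
  have hp'U : P 0 y' ∈ U0 := hmem _ _ le_rfl (by norm_num) (by linarith) (by linarith)
  have hnorm : ‖P 0 y'‖ = y' := by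
    have h3 : ‖P 0 y'‖ ≤ y' := by
      have := P_norm_le 0 y'
      rwa [abs_zero, zero_add, abs_of_pos (show 0 < y' by linarith)] at this
    have h4 : y' ≤ ‖P 0 y'‖ := by
      have := P_norm_im 0 y'
      rwa [abs_of_pos (show 0 < y' by linarith)] at this
    linarith
  have hBe : BB (r0 r) (P 0 y') e = 0 := by
    refine ContinuousLinearMap.ext fun y => ?_
    have h4 : BB (r0 r) (P 0 y') v y = 0 := by rw [hrul.1]; rfl
    rw [hev, map_smul]
    change (-a) • BB (r0 r) (P 0 y') v y = 0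
    rw [h4, smul_zero]
  refine case_zero han hiso hinj hp'U (by rw [hnorm]; linarith) (by rw [hnorm]; linarith) he ?_ hBe hrul.2.1
  rw [hdiv, P_im, P_re, zero_mul, sub_zero, abs_mul, abs_of_pos (show 0 < y' by linarith)]
  nlinarith

end main

end Pool.Agent.Y235.FE
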